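import Pool.Agent.Y117.GRT.Gen
import Pool.Agent.Helper967.FL3

/-! The Lie algebra `grt` inside the free Lie algebra. -/

set_option autoImplicit false

namespace Pool.Agent.Y117.GRT

open Pool.Agent.H777R4.DM

attribute [local instance 100] LieRing.ofAssociativeRing

/-- the free Lie algebra on two generators -/
abbrev FL2 : Type := FreeLieAlgebra ℚ (Fin 2)

/-- `ψ(a, b)` -/
noncomputable def ev {L : Type} [LieRing L] [LieAlgebra ℚ L] (ψ : FL2) (a b : L) : L :=
  FreeLieAlgebra.lift ℚ ![a, b] ψ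

noncomputable abbrev gX : FL2 := FreeLieAlgebra.of ℚ 0
noncomputable abbrev gY : FL2 := FreeLieAlgebra.of ℚ 1

/-- embedding in `ℚ⟨x₀, x₁⟩` -/
noncomputable def io : FL2 →ₗ[ℚ] A := Pool.Agent.Helper967.FL.iota

lemma io_of (i : Fin 2) : io (FreeLieAlgebra.of ℚ i) = x i :=
  Pool.Agent.Helper967.FL.iota_of i

lemma io_lie (a c : FL2) : io ⁅a, c⁆ = io a * io c - io c * io a :=
  Pool.Agent.Helper967.FL.iota_lie a c

lemma io_inj : Function.Injective io := Pool.Agent.Helper967.FL.iota_injective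

lemma x_mem (i : Fin 2) : x i ∈ LieX := by
  unfold LieX
  apply LieSubalgebra.subset_lieSpan
  fin_cases i <;> simp

lemma io_mem (u : FL2) : io u ∈ LieX := by
  induction u using Pool.Agent.Helper967.FL.fl_ind with
  | h0 => rw [map_zero]; exact LieX.zero_mem
  | hof i => rw [io_of]; exact x_mem i
  | hadd a c ha hc => rw [map_add]; exact LieX.add_mem ha hc
  | hsmul r a ha => rw [map_smul]; exact LieX.smul_mem r ha
  | hbr a c ha hc => rw [io_lie]; exact LieX.lie_mem ha hc

lemma exists_io {P : A} (h : P ∈ LieX) : ∃ u, io u = P := by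
  unfold LieX at h
  induction h using LieSubalgebra.lieSpan_induction with
  | mem y hy =>
    rcases hy with rfl | hy
    · exact ⟨FreeLieAlgebra.of ℚ 0, io_of 0⟩
    · rw [Set.mem_singleton_iff] at hy
      subst hy
      exact ⟨FreeLieAlgebra.of ℚ 1, io_of 1⟩
  | zero => exact ⟨0, map_zero _⟩
  | add y z _ _ ihy ihz =>
    obtain ⟨u, rfl⟩ := ihy
    obtain ⟨v, rfl⟩ := ihz
    exact ⟨u + v, map_add _ _ _⟩
  | smul c y _ ihy =>
    obtain ⟨u, rfl⟩ := ihy
    exact ⟨c • u, map_smul _ _ _⟩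
  | lie y z _ _ ihy ihz =>
    obtain ⟨u, rfl⟩ := ihy
    obtain ⟨v, rfl⟩ := ihz
    exact ⟨⁅u, v⁆, io_lie _ _⟩

/-- evaluation in an associative algebra -/
lemma evA_io {E : Type} [Ring E] [Algebra ℚ E] (a c : E) (u : FL2) :
    evA a c (io u) = ev u a c := by
  unfold ev
  induction u using Pool.Agent.Helper967.FL.fl_ind with
  | h0 => rw [map_zero, map_zero, map_zero]
  | hof i =>
    rw [io_of, FreeLieAlgebra.lift_of_apply]
    exact evA_letter a c i
  | hadd p q hp hq => rw [map_add, map_add, map_add, hp, hq]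
  | hsmul r p hp => rw [map_smul, map_smul, map_smul, hp]
  | hbr p q hp hq =>
    rw [io_lie, map_sub, map_mul, map_mul, hp, hq, LieHom.map_lie]
    rfl

/-! ### special derivations -/

lemma der_mem {f : A} (hf : f ∈ LieX) {P : A} (hP : P ∈ LieX) : der f P ∈ LieX := by
  unfold LieX at hP
  induction hP using LieSubalgebra.lieSpan_induction with
  | mem y hy =>
    rcases hy with rfl | hy
    · rw [H851R3.DSH.der_x0]; exact LieX.zero_mem
    · rw [Set.mem_singleton_iff] at hy
      subst hy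
      rw [H851R3.DSH.der_x1]; exact LieX.lie_mem (x_mem 1) hf
  | zero => rw [map_zero]; exact LieX.zero_mem
  | add y z _ _ ihy ihz => rw [map_add]; exact LieX.add_mem ihy ihz
  | smul c y _ ihy => rw [map_smul]; exact LieX.smul_mem c ihy
  | lie y z hy hz ihy ihz =>
    have h : der f ⁅y, z⁆ = ⁅der f y, z⁆ + ⁅y, der f z⁆ := by
      simp only [Ring.lie_def, map_sub, H851R3.DSH.der_mul]
      noncomm_ring
    rw [h]
    exact LieX.add_mem (LieX.lie_mem ihy hz) (LieX.lie_mem hy ihz)

noncomputable def dfun (f : FL2) (u : FL2) : FL2 :=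
  Classical.choose (exists_io (der_mem (io_mem f) (io_mem u)))

lemma io_dfun (f u : FL2) : io (dfun f u) = der (io f) (io u) :=
  Classical.choose_spec (exists_io (der_mem (io_mem f) (io_mem u)))

/-- the derivation `x₀ ↦ 0`, `x₁ ↦ [x₁, f]` -/
noncomputable def spd (f : FL2) : LieDerivation ℚ FL2 FL2 where
  toFun u := dfun f u
  map_add' u v := by
    apply io_inj
    rw [map_add, io_dfun, io_dfun, io_dfun, map_add, map_add]
  map_smul' c u := by
    apply io_inj
    rw [map_smul, io_dfun, io_dfun, map_smul, map_smul]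
    rfl
  leibniz' u v := by
    apply io_inj
    show io (dfun f ⁅u, v⁆) = io (⁅u, dfun f v⁆ - ⁅v, dfun f u⁆)
    rw [map_sub, io_dfun, io_lie, io_lie, io_lie, io_dfun, io_dfun, map_sub, H851R3.DSH.der_mul,
      H851R3.DSH.der_mul]
    noncomm_ring

lemma io_spd (f u : FL2) : io (spd f u) = der (io f) (io u) := io_dfun f u

lemma spd_X (f : FL2) : spd f gX = 0 := by
  apply io_inj
  rw [io_spd, io_of, H851R3.DSH.der_x0, map_zero]

lemma spd_Y (f : FL2) : spd f gY = ⁅gY, f⁆ := by
  apply io_inj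
  rw [io_spd, io_of, H851R3.DSH.der_x1, io_lie, io_of]

lemma sder_ext {D E : LieDerivation ℚ FL2 FL2} (h : ∀ i, D (FreeLieAlgebra.of ℚ i) = E (FreeLieAlgebra.of ℚ i)) :
    D = E := by
  apply LieDerivation.ext
  intro u
  induction u using Pool.Agent.Helper967.FL.fl_ind with
  | h0 => rw [map_zero, map_zero]
  | hof i => exact h i
  | hadd a c ha hc => rw [map_add, map_add, ha, hc]
  | hsmul r a ha => rw [map_smul, map_smul, ha]
  | hbr a c ha hc => rw [LieDerivation.apply_lie_eq_sub, LieDerivation.apply_lie_eq_sub, ha, hc]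

/-- a derivation with the right values on the generators is the special one -/
lemma eq_spd {D : LieDerivation ℚ FL2 FL2} {f : FL2} (h0 : D gX = 0) (h1 : D gY = ⁅gY, f⁆) :
    D = spd f := by
  apply sder_ext
  intro i
  fin_cases i
  · exact h0.trans (spd_X f).symm
  · exact h1.trans (spd_Y f).symm

/-- the image in derivations -/
lemma lift_spd (f g P u : FL2) :
    io (FreeLieAlgebra.lift ℚ ![spd f, spd g] P u) = der (Phi (io f) (io g) (io P)) (io u) := by
  induction P using Pool.Agent.Helper967.FL.fl_ind generalizing u with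
  | h0 =>
    rw [map_zero, map_zero, map_zero, LieDerivation.zero_apply, map_zero]
    have := H851R3.DSH.der_smul 0 0 (io u)
    rw [zero_smul, zero_smul] at this
    exact this.symm
  | hof i =>
    rw [FreeLieAlgebra.lift_of_apply, io_of]
    fin_cases i
    · show io (spd f u) = der (Phi (io f) (io g) (x 0)) (io u)
      rw [phi_x0, io_spd]
    · show io (spd g u) = der (Phi (io f) (io g) (x 1)) (io u)
      rw [phi_x1, io_spd]
  | hadd a c ha hc =>
    rw [map_add, map_add, map_add, LieDerivation.add_apply, map_add, ha, hc, H851R3.DSH.der_add]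
  | hsmul r a ha =>
    rw [map_smul, map_smul, map_smul, LieDerivation.smul_apply, map_smul, ha, H851R3.DSH.der_smul]
  | hbr a c ha hc =>
    rw [LieHom.map_lie, LieDerivation.commutator_apply, map_sub, ha, hc, hc, ha, io_lie,
      phi_lie _ _ _ _ (io_mem a) (io_mem c), H851R3.DSH.der_comm]

/-! ### the centraliser of `x₁` -/

lemma co_x_mul (i : Fin 2) (P : A) (j : Fin 2) (u : List (Fin 2)) :
    co (x i * P) (j :: u) = if j = i then co P u else 0 := by
  induction P using al_induction with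
  | h1 v =>
    have : (x i : A) * wd v = wd (i :: v) := by unfold x; rw [wd_mul]; rfl
    rw [this, co_wd, co_wd]
    by_cases h1 : j = i
    · subst h1
      by_cases h2 : v = u
      · rw [if_pos (by rw [h2]), if_pos rfl, if_pos h2]
      · rw [if_neg (by simpa using h2), if_pos rfl, if_neg h2]
    · rw [if_neg (by intro h; exact h1 (List.cons.inj h).1.symm), if_neg h1]
  | h2 P Q hP hQ => rw [mul_add, co_add, hP, hQ, co_add]; split_ifs <;> ring
  | h3 c P hP => rw [mul_smul_comm, co_smul, hP, co_smul]; split_ifs <;> ring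

lemma co_mul_x (i : Fin 2) (P : A) (j : Fin 2) (u : List (Fin 2)) :
    co (P * x i) (u ++ [j]) = if j = i then co P u else 0 := by
  induction P using al_induction with
  | h1 v =>
    have : wd v * (x i : A) = wd (v ++ [i]) := by unfold x; rw [wd_mul]
    rw [this, co_wd, co_wd]
    by_cases h1 : j = i
    · subst h1
      by_cases h2 : v = u
      · rw [if_pos (by rw [h2]), if_pos rfl, if_pos h2]
      · rw [if_neg (by simpa using h2), if_pos rfl, if_neg h2]
    · rw [if_neg (by intro h; exact h1 (by simpa using (List.append_inj' h rfl).2.symm)), if_neg h1]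
  | h2 P Q hP hQ => rw [add_mul, co_add, hP, hQ, co_add]; split_ifs <;> ring
  | h3 c P hP => rw [smul_mul_assoc, co_smul, hP, co_smul]; split_ifs <;> ring

lemma cent_x1 {F : A} (h : x 1 * F - F * x 1 = 0) (hF : F ∈ LieX) (h1 : co F [1] = 0) : F = 0 := by
  have h0 : x 1 * F = F * x 1 := sub_eq_zero.mp h
  have key : ∀ (k : ℕ) (v : List (Fin 2)), co F (v ++ 0 :: List.replicate k 1) = 0 := by
    intro k
    induction k with
    | zero =>
      intro v
      have h2 := congrArg (fun T => co T (1 :: (v ++ [0]))) h0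
      beta_reduce at h2
      rw [co_x_mul, if_pos rfl, ← List.cons_append, co_mul_x, if_neg (by decide)] at h2
      exact h2
    | succ k ih =>
      intro v
      have h2 := congrArg (fun T => co T (1 :: ((v ++ 0 :: List.replicate k 1) ++ [1]))) h0
      beta_reduce at h2
      rw [co_x_mul, if_pos rfl, ← List.cons_append, co_mul_x, if_pos rfl, ← List.cons_append, ih,
        List.append_assoc] at h2
      rw [List.replicate_succ']
      exact h2
  have all : ∀ u : List (Fin 2), (∃ (k : ℕ) (v : List (Fin 2)), u = v ++ 0 :: List.replicate k 1) ∨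
      ∃ k, u = List.replicate k 1 := by
    intro u
    induction u using List.reverseRecOn with
    | nil => exact Or.inr ⟨0, rfl⟩
    | append_singleton u i ih =>
      by_cases hi : i = 1
      · subst hi
        rcases ih with ⟨k, v, rfl⟩ | ⟨k, rfl⟩
        · exact Or.inl ⟨k + 1, v, by rw [List.replicate_succ']; simp⟩
        · exact Or.inr ⟨k + 1, by rw [List.replicate_succ']⟩
      · have hi0 : i = 0 := by omega
        subst hi0
        exact Or.inl ⟨0, u, rfl⟩
  apply al_ext
  intro u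
  rw [co_zero]
  rcases all u with ⟨k, v, rfl⟩ | ⟨k, rfl⟩
  · exact key k v
  · exact co_rep 1 hF h1 k

/-! ### low coefficients -/

lemma co_mul_nil (P Q : A) : co (P * Q) [] = co P [] * co Q [] := by
  induction P using al_induction with
  | h1 u =>
    induction Q using al_induction with
    | h1 v =>
      rw [wd_mul, co_wd, co_wd, co_wd]
      by_cases hu : u = [] <;> by_cases hv : v = [] <;> simp [hu, hv]
    | h2 P Q hP hQ => rw [mul_add, co_add, hP, hQ, co_add]; ring
    | h3 c P hP => rw [mul_smul_comm, co_smul, hP, co_smul]; ring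
  | h2 P Q hP hQ => rw [add_mul, co_add, hP, hQ, co_add]; ring
  | h3 c P hP => rw [smul_mul_assoc, co_smul, hP, co_smul]; ring

lemma co_mul_one (P Q : A) (i : Fin 2) :
    co (P * Q) [i] = co P [i] * co Q [] + co P [] * co Q [i] := by
  induction P using al_induction with
  | h1 u =>
    induction Q using al_induction with
    | h1 v =>
      rw [wd_mul]
      simp only [co_wd]
      rcases u with _ | ⟨a, u⟩
      · by_cases hv : v = [i]
        · subst hv; simp
        · by_cases hv2 : v = [] <;> simp [hv, hv2]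
      · rcases u with _ | ⟨a', u⟩
        · rcases v with _ | ⟨c, v⟩
          · simp
          · simp
        · simp
    | h2 P Q hP hQ => rw [mul_add, co_add, hP, hQ, co_add, co_add]; ring
    | h3 c P hP => rw [mul_smul_comm, co_smul, hP, co_smul, co_smul]; ring
  | h2 P Q hP hQ => rw [add_mul, co_add, hP, hQ, co_add, co_add]; ring
  | h3 c P hP => rw [smul_mul_assoc, co_smul, hP, co_smul, co_smul]; ring

/-- no terms of degree `≤ 1` -/
def N2 (F : A) : Prop := co F [] = 0 ∧ ∀ i, co F [i] = 0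

lemma n2_der {F : A} (hF : N2 F) (G : A) : N2 (der F G) := by
  have hc : N2 (x 1 * F - F * x 1) := by
    refine ⟨?_, fun i => ?_⟩
    · rw [co_sub, co_mul_nil, co_mul_nil, hF.1]; ring
    · rw [co_sub, co_mul_one, co_mul_one, hF.1, hF.2]; ring
  have hw : ∀ u : List (Fin 2), N2 (derW F u) := by
    intro u
    induction u with
    | nil => exact ⟨co_zero _, fun i => co_zero _⟩
    | cons i u ih =>
      have h2 : N2 (if i = 1 then x 1 * F - F * x 1 else 0) := by
        split_ifs
        · exact hc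
        · exact ⟨co_zero _, fun i => co_zero _⟩
      refine ⟨?_, fun j => ?_⟩
      · rw [derW, co_add, co_mul_nil, co_mul_nil, h2.1, ih.1]; ring
      · rw [derW, co_add, co_mul_one, co_mul_one, h2.1, h2.2, ih.1, ih.2]; ring
  induction G using al_induction with
  | h1 u => rw [H851R3.DSH.der_wd]; exact hw u
  | h2 P Q hP hQ =>
    rw [map_add]
    exact ⟨by rw [co_add, hP.1, hQ.1, add_zero], fun i => by rw [co_add, hP.2, hQ.2, add_zero]⟩
  | h3 c P hP =>
    rw [map_smul]
    exact ⟨by rw [co_smul, hP.1, mul_zero], fun i => by rw [co_smul, hP.2, mul_zero]⟩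

lemma n2_ihara {F G : A} (hF : N2 F) (hG : N2 G) : N2 (ihara F G) := by
  have h1 := n2_der hF G
  have h2 := n2_der hG F
  refine ⟨?_, fun i => ?_⟩
  · rw [ihara, co_sub, co_add, co_sub, co_mul_nil, co_mul_nil, hF.1, hG.1, h1.1, h2.1]; ring
  · rw [ihara, co_sub, co_add, co_sub, co_mul_one, co_mul_one, hF.1, hG.1, h1.2, h2.2]; ring

lemma n2_Phi {f g : A} (hf : N2 f) (hg : N2 g) (P : FL2) :
    N2 (Phi f g (io P)) ∧ (f ∈ LieX → g ∈ LieX → Phi f g (io P) ∈ LieX) := by
  induction P using Pool.Agent.Helper967.FL.fl_ind with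
  | h0 =>
    rw [map_zero, map_zero]
    exact ⟨⟨co_zero _, fun i => co_zero _⟩, fun _ _ => LieX.zero_mem⟩
  | hof i =>
    rw [io_of]
    fin_cases i
    · show N2 (Phi f g (x 0)) ∧ (f ∈ LieX → g ∈ LieX → Phi f g (x 0) ∈ LieX)
      rw [phi_x0]; exact ⟨hf, fun h _ => h⟩
    · show N2 (Phi f g (x 1)) ∧ (f ∈ LieX → g ∈ LieX → Phi f g (x 1) ∈ LieX)
      rw [phi_x1]; exact ⟨hg, fun _ h => h⟩
  | hadd a c ha hc =>
    rw [map_add, map_add]
    exact ⟨⟨by rw [co_add, ha.1.1, hc.1.1, add_zero], fun i => by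
      rw [co_add, ha.1.2, hc.1.2, add_zero]⟩, fun h1 h2 => LieX.add_mem (ha.2 h1 h2) (hc.2 h1 h2)⟩
  | hsmul r a ha =>
    rw [map_smul, map_smul]
    exact ⟨⟨by rw [co_smul, ha.1.1, mul_zero], fun i => by rw [co_smul, ha.1.2, mul_zero]⟩,
      fun h1 h2 => LieX.smul_mem r (ha.2 h1 h2)⟩
  | hbr a c ha hc =>
    rw [io_lie, phi_lie _ _ _ _ (io_mem a) (io_mem c)]
    refine ⟨n2_ihara ha.1 hc.1, fun h1 h2 => ?_⟩
    unfold ihara
    have e1 := ha.2 h1 h2
    have e2 := hc.2 h1 h2
    exact LieX.sub_mem (LieX.add_mem (LieX.lie_mem e1 e2) (der_mem e1 e2)) (der_mem e2 e1)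

/-- two special derivations generate a free Lie algebra -/
theorem spd_injective {f g : FL2} (hf : GR (io f)) (hg : GR (io g))
    (hli : LinearIndependent ℚ ![f, g]) :
    Function.Injective (FreeLieAlgebra.lift ℚ ![spd f, spd g]) := by
  have n2 : ∀ {ψ : A}, GR ψ → N2 ψ := by
    intro ψ h
    refine ⟨co_nil h.mem, fun i => ?_⟩
    match i with
    | 0 => exact h.c0
    | 1 => exact h.c1
  have hli' : ∀ a c : ℚ, a • io f + c • io g = 0 → a = 0 ∧ c = 0 := by
    intro a c h
    rw [← map_smul, ← map_smul, ← map_add] at h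
    exact LinearIndependent.pair_iff.mp hli a c (io_inj (h.trans (map_zero _).symm))
  have hinj := gr_inj hf hg hli'
  rw [injective_iff_map_eq_zero]
  intro P hP
  have h1 := lift_spd f g P gY
  rw [hP, LieDerivation.zero_apply, map_zero, io_of, H851R3.DSH.der_x1] at h1
  have h2 := n2_Phi (n2 hf) (n2 hg) P
  have h3 := cent_x1 h1.symm (h2.2 hf.mem hg.mem) (h2.1.2 1)
  have h4 : io P = 0 := hinj (h3.trans (map_zero _).symm)
  exact io_inj (h4.trans (map_zero _).symm)

/-! ### the definition of `grt` -/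

/-- The Grothendieck–Teichmüller Lie algebra. -/
structure IsGRT (ψ : FL2) : Prop where
  anti : ev ψ gY gX = - ψ
  hexagon : ev ψ gX gY + ev ψ gY (- gX - gY) + ev ψ (- gX - gY) gX = 0
  pentagon : ∀ (L : Type) [LieRing L] [LieAlgebra ℚ L] (t : Fin 4 → Fin 4 → L), DK t →
    ev ψ (t 0 1) (t 1 2 + t 1 3) + ev ψ (t 0 2 + t 1 2) (t 2 3) =
      ev ψ (t 1 2) (t 2 3) + ev ψ (t 0 1 + t 0 2) (t 1 3 + t 2 3) + ev ψ (t 0 1) (t 1 2)

/-- evaluation on elements with vanishing triple products -/
lemma evA_nil3 {E : Type} [Ring E] [Algebra ℚ E] (a c : E)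
    (h : ∀ i j k : Fin 2, (![a, c] i : E) * (![a, c] j * ![a, c] k) = 0) (P : A) :
    evA a c P = algebraMap ℚ E (co P []) + ∑ i : Fin 2, co P [i] • (![a, c] i : E) +
      ∑ i : Fin 2, ∑ j : Fin 2, co P [i, j] • ((![a, c] i : E) * ![a, c] j) := by
  induction P using al_induction with
  | h1 u =>
    simp only [co_wd]
    match u with
    | [] => rw [evA_nil]; simp
    | [i] => rw [evA_letter]; fin_cases i <;> simp
    | [i, j] =>
      rw [evA_cons, evA_letter]
      fin_cases i <;> fin_cases j <;> simp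
    | i :: j :: k :: u =>
      rw [evA_cons, evA_cons, evA_cons]
      have : (![a, c] i : E) * (![a, c] j * (![a, c] k * evA a c (wd u))) = 0 := by
        rw [← mul_assoc (![a, c] j : E), ← mul_assoc, h, zero_mul]
      rw [this]
      simp
  | h2 P Q hP hQ =>
    rw [map_add, hP, hQ]
    simp only [co_add, map_add, add_smul, Finset.sum_add_distrib]
    abel
  | h3 r P hP =>
    rw [map_smul, hP]
    simp only [co_smul, map_mul, mul_smul, smul_add, ← Finset.smul_sum]
    rw [Algebra.smul_def]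

lemma dk_comm {E : Type} [CommRing E] (t : Fin 4 → Fin 4 → E) (ht : ∀ i j, t i j = t j i) :
    DK t := by
  refine ⟨ht, fun i j k l _ => ?_, fun i j k _ => ?_⟩
  · rw [Ring.lie_def]; ring
  · rw [Ring.lie_def]; ring

lemma evA_eps (r s : ℚ) (P : A) :
    TrivSqZeroExt.snd (evA (TrivSqZeroExt.inr r : DualNumber ℚ) (TrivSqZeroExt.inr s) P) =
      co P [0] * r + co P [1] * s := by
  rw [evA_nil3]
  · simp only [Fin.sum_univ_two]
    have h : ∀ i j : Fin 2, (![TrivSqZeroExt.inr r, TrivSqZeroExt.inr s] i : DualNumber ℚ) *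
        (![TrivSqZeroExt.inr r, TrivSqZeroExt.inr s] j : DualNumber ℚ) = 0 := by
      intro i j
      fin_cases i <;> fin_cases j <;> simp
    simp only [h, smul_zero, add_zero]
    have h2 : TrivSqZeroExt.snd (algebraMap ℚ (DualNumber ℚ) (co P [])) = 0 := by
      rw [TrivSqZeroExt.algebraMap_eq_inl]
      exact TrivSqZeroExt.snd_inl _ _
    rw [TrivSqZeroExt.snd_add, TrivSqZeroExt.snd_add, h2]
    simp
  · intro i j k
    have h : (![TrivSqZeroExt.inr r, TrivSqZeroExt.inr s] j : DualNumber ℚ) *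
        (![TrivSqZeroExt.inr r, TrivSqZeroExt.inr s] k : DualNumber ℚ) = 0 := by
      fin_cases j <;> fin_cases k <;> simp
    rw [h, mul_zero]

/-- the values on the edges -/
def edge (a c : Fin 4) (i j : Fin 4) : ℚ := if (i = a ∧ j = c) ∨ (i = c ∧ j = a) then 1 else 0

lemma edge_symm (a c i j : Fin 4) : edge a c i j = edge a c j i := by
  unfold edge
  congr 1
  apply propext
  tauto

lemma pent_lin {P : A} (hp : PentA P) : co P [0] = 0 ∧ co P [1] = 0 := by
  have key : ∀ a c : Fin 4, (co P [0] * edge a c 0 1 + co P [1] * (edge a c 1 2 + edge a c 1 3)) +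
      (co P [0] * (edge a c 0 2 + edge a c 1 2) + co P [1] * edge a c 2 3) =
      (co P [0] * edge a c 1 2 + co P [1] * edge a c 2 3) +
      (co P [0] * (edge a c 0 1 + edge a c 0 2) + co P [1] * (edge a c 1 3 + edge a c 2 3)) +
      (co P [0] * edge a c 0 1 + co P [1] * edge a c 1 2) := by
    intro a c
    have h := hp (DualNumber ℚ) (fun i j => TrivSqZeroExt.inr (edge a c i j))
      (dk_comm _ (fun i j => by rw [edge_symm]))
    have h2 := congrArg TrivSqZeroExt.snd h
    beta_reduce at h2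
    simp only [← TrivSqZeroExt.inr_add, TrivSqZeroExt.snd_add, evA_eps] at h2
    exact h2
  have h1 := key 0 1
  have h2 := key 2 3
  have e1 : edge 0 1 0 1 = 1 := by decide +kernel
  have e2 : edge 0 1 1 2 = 0 := by decide +kernel
  have e3 : edge 0 1 1 3 = 0 := by decide +kernel
  have e4 : edge 0 1 0 2 = 0 := by decide +kernel
  have e5 : edge 0 1 2 3 = 0 := by decide +kernel
  have f1 : edge 2 3 0 1 = 0 := by decide +kernel
  have f2 : edge 2 3 1 2 = 0 := by decide +kernel
  have f3 : edge 2 3 1 3 = 0 := by decide +kernel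
  have f4 : edge 2 3 0 2 = 0 := by decide +kernel
  have f5 : edge 2 3 2 3 = 1 := by decide +kernel
  rw [e1, e2, e3, e4, e5] at h1
  rw [f1, f2, f3, f4, f5] at h2
  constructor
  · linarith
  · linarith

/-- strictly upper triangular matrices -/
def T3 (a c : ℚ) : Matrix (Fin 3) (Fin 3) ℚ := !![0, a, 0; 0, 0, c; 0, 0, 0]

lemma T3_mul (a c a' c' : ℚ) : T3 a c * T3 a' c' = !![0, 0, a * c'; 0, 0, 0; 0, 0, 0] := by
  ext i j
  fin_cases i <;> fin_cases j <;> simp [T3, Matrix.mul_apply, Fin.sum_univ_three]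

lemma T3_mul3 (a c a' c' a'' c'' : ℚ) : T3 a c * (T3 a' c' * T3 a'' c'') = 0 := by
  rw [T3_mul]
  ext i j
  fin_cases i <;> fin_cases j <;> simp [T3, Matrix.mul_apply, Fin.sum_univ_three]

lemma evA_T3 (a c a' c' : ℚ) {P : A} (h0 : co P [] = 0) (h1 : co P [0] = 0) (h2 : co P [1] = 0) :
    evA (T3 a c) (T3 a' c') P 0 2 =
      co P [0, 0] * (a * c) + co P [0, 1] * (a * c') + (co P [1, 0] * (a' * c) +
        co P [1, 1] * (a' * c')) := by
  rw [evA_nil3]
  · simp only [Fin.sum_univ_two, h0, h1, h2, map_zero, zero_smul, add_zero, zero_add]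
    simp [T3_mul]
  · intro i j k
    fin_cases i <;> fin_cases j <;> fin_cases k <;> exact T3_mul3 _ _ _ _ _ _

/-- naturality of evaluation -/
lemma lift_ev {L : Type} [LieRing L] [LieAlgebra ℚ L] (φ : FL2 →ₗ⁅ℚ⁆ L) (ψ a c : FL2) :
    φ (ev ψ a c) = ev ψ (φ a) (φ c) := by
  unfold ev
  have : φ.comp (FreeLieAlgebra.lift ℚ ![a, c]) = FreeLieAlgebra.lift ℚ ![φ a, φ c] := by
    apply FreeLieAlgebra.hom_ext
    intro i
    rw [LieHom.comp_apply, FreeLieAlgebra.lift_of_apply, FreeLieAlgebra.lift_of_apply]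
    fin_cases i <;> rfl
  exact LieHom.congr_fun this ψ

lemma gr_of_grt {ψ : FL2} (h : IsGRT ψ) : GR (io ψ) := by
  have hmem := io_mem ψ
  have hp : PentA (io ψ) := by
    intro E _ _ t ht
    rw [evA_io, evA_io, evA_io, evA_io, evA_io]
    exact h.pentagon E t ht
  have hnil := co_nil hmem
  obtain ⟨h0, h1⟩ := pent_lin hp
  refine ⟨hmem, h0, h1, ?_, hp⟩
  have hx := congrArg (FreeLieAlgebra.lift ℚ ![T3 1 0, T3 0 1] :
    FL2 →ₗ⁅ℚ⁆ Matrix (Fin 3) (Fin 3) ℚ) h.hexagon
  have e0 : (FreeLieAlgebra.lift ℚ ![T3 1 0, T3 0 1] : FL2 →ₗ⁅ℚ⁆ Matrix (Fin 3) (Fin 3) ℚ) gX =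
      T3 1 0 := FreeLieAlgebra.lift_of_apply _ _
  have e1 : (FreeLieAlgebra.lift ℚ ![T3 1 0, T3 0 1] : FL2 →ₗ⁅ℚ⁆ Matrix (Fin 3) (Fin 3) ℚ) gY =
      T3 0 1 := FreeLieAlgebra.lift_of_apply _ _
  have e2 : (- T3 1 0 - T3 0 1 : Matrix (Fin 3) (Fin 3) ℚ) = T3 (-1) (-1) := by
    ext i j
    fin_cases i <;> fin_cases j <;> simp [T3]
  rw [map_add, map_add, lift_ev, lift_ev, lift_ev, map_sub, map_neg, map_zero, e0, e1, e2,
    ← evA_io, ← evA_io, ← evA_io] at hx
  have hx2 := congrArg (fun M : Matrix (Fin 3) (Fin 3) ℚ => M 0 2) hx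
  simp only [Matrix.add_apply, Matrix.zero_apply] at hx2
  rw [evA_T3 _ _ _ _ hnil h0 h1, evA_T3 _ _ _ _ hnil h0 h1, evA_T3 _ _ _ _ hnil h0 h1] at hx2
  have h00 : co (io ψ) [0, 0] = 0 := co_rep 0 hmem h0 2
  have h11 : co (io ψ) [1, 1] = 0 := co_rep 1 hmem h1 2
  have h10 : co (io ψ) [1, 0] = - co (io ψ) [0, 1] := by
    have h := taskTwoB (io ψ) hmem [0, 1]
    simp only [List.reverse_cons, List.reverse_nil, List.nil_append, List.cons_append,
      List.length_cons, List.length_nil] at h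
    rw [h]
    ring
  rw [h00, h11, h10] at hx2
  linarith

/-- **Main theorem.** -/
theorem grt_two {ψ₁ ψ₂ : FL2} (h₁ : IsGRT ψ₁) (h₂ : IsGRT ψ₂)
    (hli : LinearIndependent ℚ ![ψ₁, ψ₂]) :
    Function.Injective (FreeLieAlgebra.lift ℚ ![spd ψ₁, spd ψ₂]) :=
  spd_injective (gr_of_grt h₁) (gr_of_grt h₂) hli

end Pool.Agent.Y117.GRT
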