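import Pool.Agent.Y117.GRT.Vac

/-! The lowest depth part of a solution of the pentagon is primitive in the letters `y_k`. -/

set_option autoImplicit false

namespace Pool.Agent.Y117.GRT

open Pool.Agent.H777R4.DM

attribute [local instance 100] LieRing.ofAssociativeRing

/-! ### the length grading of `AYY` -/

noncomputable def dpB (n : ℕ) : AYY →ₗ[ℚ] AYY :=
  blext fun p q => if p.length + q.length = n then b p q else 0

lemma dpB_b (n : ℕ) (p q : List ℕ) : dpB n (b p q) = if p.length + q.length = n then b p q else 0 := by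
  unfold dpB; rw [blext_b]

lemma dpB_b_eq {n : ℕ} {p q : List ℕ} (h : p.length + q.length = n) : dpB n (b p q) = b p q := by
  rw [dpB_b, if_pos h]
lemma dpB_b_ne {n : ℕ} {p q : List ℕ} (h : ¬ p.length + q.length = n) : dpB n (b p q) = 0 := by
  rw [dpB_b, if_neg h]

lemma dpB_R0 (n : ℕ) (ξ : AYY) : dpB n (R0 ξ) = R0 (dpB n ξ) := by
  have : dpB n ∘ₗ R0 = R0 ∘ₗ dpB n := by
    apply blin_ext
    intro p q
    rw [LinearMap.comp_apply, LinearMap.comp_apply]
    rcases q with _ | ⟨c, w⟩
    · rw [R0_nil, map_zero, dpB_b]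
      split_ifs
      · rw [R0_nil]
      · rw [map_zero]
    · rw [R0_cons]
      by_cases h : p.length + (c :: w).length = n
      · rw [dpB_b_eq h, dpB_b_eq (by simpa using h), R0_cons]
      · rw [dpB_b_ne h, dpB_b_ne (by simpa using h), map_zero]
  exact LinearMap.congr_fun this ξ

/-- an operator raising the length by one -/
def Up (F : Module.End ℚ AYY) : Prop := (∀ ξ, dpB 0 (F ξ) = 0) ∧ ∀ n ξ, dpB (n + 1) (F ξ) = F (dpB n ξ)

lemma up_of {F : Module.End ℚ AYY}
    (h : ∀ p q, dpB (p.length + q.length + 1) (F (b p q)) = F (b p q)) : Up F := by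
  have hd : ∀ m n ξ, m ≠ n → dpB m (dpB n ξ) = 0 := by
    intro m n ξ hmn
    have : dpB m ∘ₗ dpB n = 0 := by
      apply blin_ext
      intro p q
      rw [LinearMap.comp_apply, LinearMap.zero_apply, dpB_b]
      split_ifs with h1
      · rw [dpB_b, if_neg (by omega)]
      · rw [map_zero]
    exact LinearMap.congr_fun this ξ
  constructor
  · intro ξ
    have : dpB 0 ∘ₗ F = 0 := by
      apply blin_ext
      intro p q
      rw [LinearMap.comp_apply, LinearMap.zero_apply, ← h p q]
      exact hd _ _ _ (by omega)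
    exact LinearMap.congr_fun this ξ
  · intro n ξ
    have : dpB (n + 1) ∘ₗ F = F ∘ₗ dpB n := by
      apply blin_ext
      intro p q
      rw [LinearMap.comp_apply, LinearMap.comp_apply]
      by_cases h1 : p.length + q.length = n
      · rw [dpB_b_eq h1, ← h1, h]
      · rw [dpB_b_ne h1, map_zero, ← h p q]
        exact hd _ _ _ (by omega)
    exact LinearMap.congr_fun this ξ

lemma up_E0 : Up E0 := by
  apply up_of
  intro p q
  rcases q with _ | ⟨c, w⟩
  · rw [E0_nil, map_zero]
  · rw [E0_cons, dpB_b_eq]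
    simp only [List.length_append, List.length_cons, List.length_nil]; omega

lemma up_Sg : Up Sg := by
  apply up_of
  intro p q
  rcases q with _ | ⟨c, w⟩
  · rw [Sg_nil, dpB_b_eq]
    simp
  · rw [Sg_cons, map_sub, dpB_b_eq, dpB_b_eq]
    · simp only [List.length_append, List.length_cons, List.length_nil]; omega
    · simp only [List.length_cons]; omega

lemma up_Y1 : Up Y1 := by
  apply up_of
  intro p q
  rw [Y1_b, dpB_b_eq]
  simp only [List.length_cons]; omega

lemma up_X1 : Up X1 := by
  apply up_of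
  intro p q
  rcases p with _ | ⟨a, p⟩ <;> rcases q with _ | ⟨c, w⟩
  · rw [X1_nn, map_zero]
  · rw [X1_nc, map_neg, dpB_b_eq]
    simp only [List.length_cons, List.length_nil]; omega
  · rw [X1_cn, dpB_b_eq]
    simp
  · rw [X1_cc, map_sub, dpB_b_eq, dpB_b_eq]
    · simp only [List.length_append, List.length_cons, List.length_nil]; omega
    · simp only [List.length_cons]; omega

lemma dpB_v0 : dpB 0 v0 = v0 := by unfold v0; rw [dpB_b, if_pos (by simp)]
lemma dpB_v0_ne {n : ℕ} (h : n ≠ 0) : dpB n v0 = 0 := by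
  unfold v0; rw [dpB_b, if_neg]; simpa using (Ne.symm h)

/-- the term `ψ(X₁, Y₁)` -/
lemma dpB_B (u : List (Fin 2)) (n : ℕ) (h : n ≠ u.length) : dpB n (vac X1 Y1 (wd u)) = 0 := by
  induction u generalizing n with
  | nil => rw [vac_nil]; exact dpB_v0_ne (by simpa using h)
  | cons i u ih =>
    have h2 : ∀ F, Up F → dpB n (F (vac X1 Y1 (wd u))) = 0 := by
      intro F hF
      rcases n with _ | n
      · exact hF.1 _
      · rw [hF.2, ih n (by simpa using h), map_zero]
    by_cases hi : i = 1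
    · subst hi; rw [vac_1]; exact h2 _ up_Y1
    · have hi0 : i = 0 := by omega
      subst hi0; rw [vac_0]; exact h2 _ up_X1

/-- the term `ψ(X₀, X₁ + Z)` -/
lemma dpB_D (u : List (Fin 2)) (n : ℕ) (h : n ≤ u.count 1) :
    dpB n (vac X0 Sg (wd u)) = if n = u.count 1 then vac R0 Sg (wd u) else 0 := by
  induction u generalizing n with
  | nil =>
    rw [vac_nil, vac_nil]
    have : n = 0 := by simpa using h
    subst this
    simpa using dpB_v0
  | cons i u ih =>
    by_cases hi : i = 1
    · subst hi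
      rw [List.count_cons_self] at h ⊢
      rw [vac_1, vac_1]
      rcases n with _ | n
      · rw [up_Sg.1, if_neg (by omega)]
      · rw [up_Sg.2, ih n (by omega)]
        split_ifs with h1 h2 h2
        · rfl
        · omega
        · omega
        · rw [map_zero]
    · have hi0 : i = 0 := by omega
      subst hi0
      rw [List.count_cons_of_ne (by decide)] at h ⊢
      rw [vac_0, vac_0]
      have h1 : dpB n (X0 (vac X0 Sg (wd u))) = R0 (dpB n (vac X0 Sg (wd u))) +
          dpB n (E0 (vac X0 Sg (wd u))) := by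
        unfold X0
        rw [LinearMap.add_apply, map_add, dpB_R0]
      have h2 : dpB n (E0 (vac X0 Sg (wd u))) = 0 := by
        rcases n with _ | n
        · exact up_E0.1 _
        · rw [up_E0.2, ih n (by omega), if_neg (by omega), map_zero]
      rw [h1, h2, add_zero, ih n h]
      split_ifs
      · rfl
      · rw [map_zero]

/-! ### the map `Γ` -/

lemma shΔ_nil : shΔ (wd []) = 1 := by
  have : (wd [] : AY) = 1 := Lead2.wd_nil
  rw [this, map_one]

lemma shΔ_letter (a : ℕ) : shΔ (wd [a]) = inl (wd [a]) + inr (wd [a]) := by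
  unfold shΔ
  conv_lhs => unfold wd
  rw [MonoidAlgebra.lift_of]
  exact FreeMonoid.lift_eval_of _ _

lemma shΔ_cons (a : ℕ) (w : List ℕ) :
    shΔ (wd (a :: w)) = (b [a] [] + b [] [a]) * shΔ (wd w) := by
  have : (wd (a :: w) : AY) = wd [a] * wd w := by rw [wd_mul]; rfl
  rw [this, map_mul, shΔ_letter, inl_wd, inr_wd]

noncomputable def Gam : AYY →ₗ[ℚ] AYY := blext fun p q => match q with
  | [] => b [] p
  | a :: w => b [a] p * shΔ (wd w)

lemma Gam_nil (p : List ℕ) : Gam (b p []) = b [] p := by unfold Gam; rw [blext_b]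
lemma Gam_cons (p : List ℕ) (a : ℕ) (w : List ℕ) : Gam (b p (a :: w)) = b [a] p * shΔ (wd w) := by
  unfold Gam; rw [blext_b]

/-- raise the first letter of the left word -/
noncomputable def rho : AYY →ₗ[ℚ] AYY := blext fun p q => match p with
  | [] => 0
  | a :: p' => b ((a + 1) :: p') q

lemma rho_mul (a : ℕ) (p : List ℕ) (η : AYY) : rho (b [a] p * η) = b [a + 1] p * η := by
  induction η using ayy_induction with
  | h1 p' q' =>
    rw [b_mul, b_mul]
    unfold rho
    rw [blext_b]
    rfl
  | h2 x y hx hy => rw [mul_add, map_add, hx, hy, mul_add]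
  | h3 c x hx => rw [mul_smul_comm, map_smul, hx, mul_smul_comm]

lemma Gam_R0 (ξ : AYY) : Gam (R0 ξ) = rho (Gam ξ) := by
  have : Gam ∘ₗ R0 = rho ∘ₗ Gam := by
    apply blin_ext
    intro p q
    rw [LinearMap.comp_apply, LinearMap.comp_apply]
    rcases q with _ | ⟨c, w⟩
    · rw [R0_nil, map_zero, Gam_nil]
      unfold rho; rw [blext_b]
    · rw [R0_cons, Gam_cons, Gam_cons, rho_mul]
  exact LinearMap.congr_fun this ξ

lemma Gam_Sg (ξ : AYY) : Gam (Sg ξ) = b [0] [] * Gam ξ := by
  have : Gam ∘ₗ Sg = (LinearMap.mulLeft ℚ (b [0] [])) ∘ₗ Gam := by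
    apply blin_ext
    intro p q
    rw [LinearMap.comp_apply, LinearMap.comp_apply, LinearMap.mulLeft_apply]
    rcases q with _ | ⟨c, w⟩
    · rw [Sg_nil, Gam_cons, Gam_nil, shΔ_nil, mul_one, b_mul]
      rfl
    · rw [Sg_cons, map_sub, Gam_cons, Gam_cons, Gam_cons, shΔ_cons]
      have h1 : b [0] (p ++ [c]) = b [0] p * b [] [c] := by rw [b_mul, List.append_nil]
      have h2 : b [0] [] * (b [c] p * shΔ (wd w)) = b [0] p * (b [c] [] * shΔ (wd w)) := by
        rw [← mul_assoc, ← mul_assoc, b_mul, b_mul]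
        simp
      rw [h1, h2, mul_assoc, ← mul_sub, add_mul, add_sub_cancel_right]
  exact LinearMap.congr_fun this ξ

lemma Gam_D (P : A) : Gam (vac R0 Sg P) = inl (run 0 P) := by
  rw [← lext_inl]
  refine vac_run (Gam ∘ₗ vac R0 Sg) (fun ξ => rho ξ) (fun ξ => b [0] [] * ξ) (fun v => b v [])
    ?_ ?_ ?_ (map_zero _) (mul_zero _) ?_ ?_ ?_ P
  · rw [LinearMap.comp_apply, vac_nil]
    exact Gam_nil []
  · intro u
    rw [LinearMap.comp_apply, LinearMap.comp_apply, vac_0, Gam_R0]
  · intro u
    rw [LinearMap.comp_apply, LinearMap.comp_apply, vac_1, Gam_Sg]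
  · unfold rho
    show (blext _) (b [] []) = 0
    rw [blext_b]
  · intro a l
    show rho (b (a :: l) []) = _
    unfold rho
    rw [blext_b]
  · intro l
    show b [0] [] * b l [] = b (0 :: l) []
    rw [b_mul]
    rfl

lemma Gam_cn (a : ℕ) (ξ : AYY) : Gam (cn a ξ) = b [] [a] * Gam ξ := by
  have : Gam ∘ₗ cn a = (LinearMap.mulLeft ℚ (b [] [a])) ∘ₗ Gam := by
    apply blin_ext
    intro p q
    rw [LinearMap.comp_apply, LinearMap.comp_apply, LinearMap.mulLeft_apply, cn_b]
    rcases q with _ | ⟨c, w⟩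
    · rw [Gam_nil, Gam_nil, b_mul]; rfl
    · rw [Gam_cons, Gam_cons, ← mul_assoc, b_mul]; rfl
  exact LinearMap.congr_fun this ξ

lemma Gam_dc (v : List ℕ) : Gam (dc v) = shΔ (wd v) := by
  induction v with
  | nil =>
    unfold dc
    rw [Gam_nil, shΔ_nil]
    unfold b
    exact map_one _
  | cons a v ih =>
    unfold dc
    rw [map_add, Gam_cons, Gam_cn, ih, shΔ_cons, add_mul]

lemma Gam_C (P : AY) : Gam (lext dc P) = shΔ P := by
  have : Gam ∘ₗ lext dc = shΔ.toLinearMap := by
    apply lin_ext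
    intro l
    rw [LinearMap.comp_apply, lext_wd, Gam_dc]
    rfl
  exact LinearMap.congr_fun this P

lemma Gam_E (P : AY) : Gam (inl P) = inr P := by
  rw [← lext_inl, ← lext_inr]
  have : Gam ∘ₗ lext (fun v => b v []) = lext (fun v => b [] v) := by
    apply lin_ext
    intro l
    rw [LinearMap.comp_apply, lext_wd, lext_wd, Gam_nil]
  exact LinearMap.congr_fun this P

/-! ### assembly -/

noncomputable def dpx (r : ℕ) : A →ₗ[ℚ] A := lext (fun u => if u.count 1 = r then wd u else 0)
lemma dpx_wd (r : ℕ) (u : List (Fin 2)) : dpx r (wd u) = if u.count 1 = r then wd u else 0 := by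
  unfold dpx; rw [lext_wd]

lemma run_dpx (r : ℕ) (P : A) : run 0 (dpx r P) = dp r (run 0 P) := by
  induction P using al_induction with
  | h2 P Q hP hQ => simp only [map_add, hP, hQ]
  | h3 c P hP => simp only [map_smul, hP]
  | h1 u =>
    rw [dpx_wd, run0_wd]
    have h1 : u.count 1 = (strip u).1.length := by
      conv_lhs => rw [← wordX_strip u]
      rw [word_count]
    have h2 : ∀ v : List ℕ, dp r (wd v) = if v.length = r then wd v else 0 := by
      intro v; unfold dp; rw [lext_wd]
    rw [h1]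
    by_cases h3 : (strip u).1.length = r <;> by_cases h4 : (strip u).2 = 0
    · rw [if_pos h3, if_pos h4, run0_wd, if_pos h4, h2, if_pos h3]
    · rw [if_pos h3, if_neg h4, run0_wd, if_neg h4, map_zero]
    · rw [if_neg h3, if_pos h4, map_zero, h2, if_neg h3]
    · rw [if_neg h3, if_neg h4, map_zero, map_zero]

/-- linear maps agreeing on the words of `P` agree on `P` -/
lemma agree {V : Type} [AddCommGroup V] [Module ℚ V] (F G : A →ₗ[ℚ] V) (P : A)
    (h : ∀ u, co P u ≠ 0 → F (wd u) = G (wd u)) : F P = G P := by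
  rw [Lead2.expand P, map_sum, map_sum]
  refine Finset.sum_congr rfl fun m hm => ?_
  rw [map_smul, map_smul, h]
  have : P.coeff m ≠ 0 := Finsupp.mem_support_iff.mp hm
  exact this

lemma dpB_inl (r : ℕ) (P : AY) : dpB r (inl P) = inl (dp r P) := by
  rw [← lext_inl, ← lext_inl]
  have : dpB r ∘ₗ lext (fun v => b v []) = lext (fun v => b v []) ∘ₗ dp r := by
    apply lin_ext
    intro l
    rw [LinearMap.comp_apply, LinearMap.comp_apply, lext_wd]
    unfold dp
    rw [lext_wd, dpB_b]
    by_cases h : l.length = r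
    · rw [if_pos (by simpa using h), if_pos h, lext_wd]
    · rw [if_neg (by simpa using h), if_neg h, map_zero]
  exact LinearMap.congr_fun this P

lemma dpB_cn (a n : ℕ) (ξ : AYY) : dpB (n + 1) (cn a ξ) = cn a (dpB n ξ) := by
  have h : Up (cn a) := by
    apply up_of
    intro p q
    rw [cn_b, dpB_b_eq]
    simp only [List.length_cons]; omega
  exact h.2 n ξ

lemma dpB_dc (v : List ℕ) : dpB v.length (dc v) = dc v := by
  induction v with
  | nil => unfold dc; exact dpB_v0
  | cons a v ih =>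
    unfold dc
    rw [List.length_cons, map_add, dpB_cn, ih, dpB_b_eq (by simp)]

lemma dpB_dpB (m n : ℕ) (ξ : AYY) (h : m ≠ n) : dpB m (dpB n ξ) = 0 := by
  have : dpB m ∘ₗ dpB n = 0 := by
    apply blin_ext
    intro p q
    rw [LinearMap.comp_apply, LinearMap.zero_apply, dpB_b]
    split_ifs with h1
    · rw [dpB_b, if_neg (by omega)]
    · rw [map_zero]
  exact LinearMap.congr_fun this ξ

lemma dpB_C (r : ℕ) (P : AY) : dpB r (lext dc P) = lext dc (dp r P) := by
  have : dpB r ∘ₗ lext dc = lext dc ∘ₗ dp r := by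
    apply lin_ext
    intro l
    rw [LinearMap.comp_apply, LinearMap.comp_apply, lext_wd]
    unfold dp
    rw [lext_wd]
    by_cases h : l.length = r
    · rw [if_pos h, lext_wd, ← h, dpB_dc]
    · rw [if_neg h, map_zero, ← dpB_dc l, dpB_dpB _ _ _ (Ne.symm h)]
  exact LinearMap.congr_fun this P

/-- **The lowest depth part is primitive.** -/
theorem prim_of_pent {ψ : A} (hp : PentA ψ) (h0 : co ψ [] = 0) {r : ℕ}
    (hone : co ψ (List.replicate r 1) = 0) (hr : ∀ u, co ψ u ≠ 0 → r ≤ u.count 1) :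
    Prim (dp r (run 0 ψ)) := by
  have hpent := hp (Module.End ℚ AYY) (tm X0 X1 Y0 Y1 Zz) (dk_tm _ _ _ _ _ r1 r2 r3 r4 r5 r6)
  have e1 : tm X0 X1 Y0 Y1 Zz 0 1 = X0 := rfl
  have e2 : tm X0 X1 Y0 Y1 Zz 1 2 = X1 := rfl
  have e3 : tm X0 X1 Y0 Y1 Zz 1 3 = Zz := rfl
  have e4 : tm X0 X1 Y0 Y1 Zz 0 2 = Y0 - X0 - X1 := rfl
  have e5 : tm X0 X1 Y0 Y1 Zz 2 3 = Y1 := rfl
  rw [e1, e2, e3, e4, e5] at hpent
  have hS : X1 + Zz = Sg := by unfold X1; exact sub_add_cancel _ _
  rw [hS] at hpent
  have h1 := congrArg (fun T : Module.End ℚ AYY => T v0) hpent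
  simp only [LinearMap.add_apply] at h1
  rw [← vac_apply, ← vac_apply, ← vac_apply, ← vac_apply, ← vac_apply, vacA ψ h0, vacE, vacC,
    add_zero] at h1
  have h2 := congrArg (dpB r) h1
  rw [map_add, map_add, dpB_inl, dpB_C] at h2
  have hB : dpB r (vac X1 Y1 ψ) = 0 := by
    have := agree (dpB r ∘ₗ vac X1 Y1) 0 ψ (fun u hu => by
      rw [LinearMap.comp_apply, LinearMap.zero_apply]
      apply dpB_B
      intro hl
      have h3 := hr u hu
      have h4 : u.count 1 ≤ u.length := List.count_le_length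
      have h5 : u.count 1 = u.length := by omega
      have h6 : u = List.replicate r 1 := by
        rw [List.eq_replicate_iff]
        refine ⟨hl.symm, ?_⟩
        have := List.count_eq_length.mp h5
        intro x hx
        exact (this x hx).symm
      rw [h6] at hu
      exact hu hone)
    exact this
  have hD : dpB r (vac X0 Sg ψ) = vac R0 Sg (dpx r ψ) := by
    refine agree (dpB r ∘ₗ vac X0 Sg) (vac R0 Sg ∘ₗ dpx r) ψ (fun u hu => ?_)
    rw [LinearMap.comp_apply, LinearMap.comp_apply, dpB_D u r (hr u hu), dpx_wd]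
    by_cases h : r = u.count 1
    · rw [if_pos h, if_pos h.symm]
    · rw [if_neg h, if_neg (fun h' => h h'.symm), map_zero]
  rw [hB, hD, zero_add] at h2
  have h3 := congrArg Gam h2
  rw [map_add, Gam_D, Gam_E, Gam_C, run_dpx] at h3
  exact h3.symm

end Pool.Agent.Y117.GRT
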