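import Pool.Agent.Y117.GRT.Gam
import Pool.Agent.H777R4.DM.AsmN
import Pool.Agent.H630R3.DM.FreeP

/-! Solutions of the pentagon: any two linearly independent ones generate a free Lie algebra. -/

set_option autoImplicit false

namespace Pool.Agent.Y117.GRT

open Pool.Agent.H777R4.DM

attribute [local instance 100] LieRing.ofAssociativeRing

/-- Lie polynomials without terms of degree `≤ 2` satisfying the pentagon. -/
structure GR (ψ : A) : Prop where
  mem : ψ ∈ LieX
  c0 : co ψ [0] = 0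
  c1 : co ψ [1] = 0
  c01 : co ψ [0, 1] = 0
  pent : PentA ψ

lemma gr_zero : GR (0 : A) := by
  refine ⟨LieX.zero_mem, co_zero _, co_zero _, co_zero _, ?_⟩
  intro E _ _ t _
  simp only [map_zero, add_zero]

lemma gr_sub {ψ₁ ψ₂ : A} (h₁ : GR ψ₁) (h₂ : GR ψ₂) (κ : ℚ) : GR (ψ₂ - κ • ψ₁) := by
  refine ⟨LieX.sub_mem h₂.mem (LieX.smul_mem κ h₁.mem), ?_, ?_, ?_, ?_⟩
  · rw [co_sub, co_smul, h₁.c0, h₂.c0]; ring
  · rw [co_sub, co_smul, h₁.c1, h₂.c1]; ring
  · rw [co_sub, co_smul, h₁.c01, h₂.c01]; ring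
  · intro E _ _ t ht
    have e1 := h₁.pent E t ht
    have e2 := h₂.pent E t ht
    simp only [map_sub, map_smul]
    rw [sub_add_sub_comm, ← smul_add, e1, e2, smul_add, smul_add]
    abel

lemma gr_add {ψ₁ ψ₂ : A} (h₁ : GR ψ₁) (h₂ : GR ψ₂) : GR (ψ₁ + ψ₂) := by
  have := gr_sub h₂ h₁ (-1)
  rwa [neg_smul, one_smul, sub_neg_eq_add] at this

lemma gr_smul {ψ : A} (h : GR ψ) (c : ℚ) : GR (c • ψ) := by
  have := gr_sub h gr_zero (-c)
  rwa [neg_smul, sub_neg_eq_add, zero_add] at this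

lemma gr_sum {ι : Type} (s : Finset ι) (f : ι → A) (h : ∀ i ∈ s, GR (f i)) : GR (∑ i ∈ s, f i) :=
  Finset.sum_induction f GR (fun _ _ => gr_add) gr_zero h

section small

lemma co_nil {ψ : A} (h : ψ ∈ LieX) : co ψ [] = 0 := by
  have h := taskTwoB ψ h []
  simp at h
  linarith

lemma co_rep (i : Fin 2) {ψ : A} (h : ψ ∈ LieX) (hi : co ψ [i] = 0) (n : ℕ) :
    co ψ (List.replicate n i) = 0 := by
  cases n with
  | zero => simpa using co_nil h
  | succ n =>
    have hins : ∀ (n j : ℕ), j ≤ n → (List.replicate n i).insertIdx j i = List.replicate (n + 1) i := by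
      intro n
      induction n with
      | zero =>
        intro j hj
        obtain rfl : j = 0 := by omega
        simp
      | succ n ih =>
        intro j hj
        cases j with
        | zero => simp [List.replicate_succ]
        | succ j =>
          rw [List.replicate_succ, List.insertIdx_succ_cons, ih j (by omega)]
          rfl
    have h := Pool.Agent.H352.DSH.taskTwoC ψ h i hi (List.replicate n i)
    rw [List.length_replicate] at h
    rw [Finset.sum_congr rfl (fun j hj => by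
      rw [hins n j (by
        have := Finset.mem_range.1 hj
        omega)])] at h
    rw [Finset.sum_const, Finset.card_range, nsmul_eq_mul] at h
    rcases mul_eq_zero.1 h with h | h
    · exact absurd h (by positivity)
    · exact h

lemma gr_small {ψ : A} (hψ : GR ψ) : ∀ u, co ψ u ≠ 0 → 3 ≤ u.length ∧ 1 ≤ u.count 1 := by
  intro u hu
  have h0 : co ψ [] = 0 := co_nil hψ.mem
  have hzero : ∀ n : ℕ, co ψ (List.replicate n 0) = 0 := co_rep 0 hψ.mem hψ.c0
  have hcount : 1 ≤ u.count 1 := by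
    by_contra hcon
    have hc : u.count 1 = 0 := by omega
    have hmem : (1 : Fin 2) ∉ u := List.count_eq_zero.1 hc
    have hall : ∀ b ∈ u, b = (0 : Fin 2) := by
      intro b hb
      have hb1 : b ≠ 1 := by
        rintro rfl
        exact hmem hb
      omega
    have hrep : u = List.replicate u.length 0 := List.eq_replicate_iff.2 ⟨rfl, hall⟩
    apply hu
    rw [hrep]
    exact hzero _
  refine ⟨?_, hcount⟩
  by_contra hlen
  have h11 : co ψ [1, 1] = 0 := co_rep 1 hψ.mem hψ.c1 2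
  have h10 : co ψ [1, 0] = 0 := by
    have h := taskTwoB ψ hψ.mem [0, 1]
    rw [hψ.c01] at h
    simpa using h
  have h2 : ∀ i j : Fin 2, co ψ [i, j] = 0 := by
    intro i j
    match i, j with
    | 0, 0 => exact hzero 2
    | 0, 1 => exact hψ.c01
    | 1, 0 => exact h10
    | 1, 1 => exact h11
  have h1 : ∀ i : Fin 2, co ψ [i] = 0 := by
    intro i
    match i with
    | 0 => exact hψ.c0
    | 1 => exact hψ.c1
  apply hu
  match u, hlen with
  | [], _ => exact h0
  | [i], _ => exact h1 i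
  | [i, j], _ => exact h2 i j
  | _ :: _ :: _ :: v, h => exact absurd (by simp only [List.length_cons]; omega) h

end small

/-- the lowest depth part is primitive -/
lemma gr_prim {ψ : A} (hψ : GR ψ) {r : ℕ} (hr : ∀ u, co ψ u ≠ 0 → r ≤ u.count 1) :
    Prim (Fp r ψ 0) :=
  prim_of_pent hψ.pent (co_nil hψ.mem) (co_rep 1 hψ.mem hψ.c1 r) hr

lemma gr_r0 {ψ : A} (hψ : GR ψ) (r j : ℕ) :
    ((j : ℚ) + 1) • Fp r ψ (j + 1) = - dl (Fp r ψ j) := by
  have := congrArg (dp r) (Pool.Agent.H777R4.DM.R0.taskR0 ψ hψ.mem hψ.c0 j)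
  rw [map_smul, map_neg, dp_dl] at this
  exact this

lemma gr_prims {ψ : A} (hψ : GR ψ) {r : ℕ} (hr : ∀ u, co ψ u ≠ 0 → r ≤ u.count 1) (j : ℕ) :
    Prim (Fp r ψ j) := by
  induction j with
  | zero => exact gr_prim hψ hr
  | succ j ih =>
    have h1 : Fp r ψ (j + 1) = ((j : ℚ) + 1)⁻¹ • (- dl (Fp r ψ j)) := by
      rw [← gr_r0 hψ, smul_smul, inv_mul_cancel₀ (by positivity), one_smul]
    rw [h1]
    exact prim_smul _ (prim_neg (Pool.Agent.H237R3.DM.taskDelta _ ih))

lemma gr_prof {ψ : A} {w : ℕ} (hψ : GR ψ) (hw : LenHom ψ w) (h0 : ψ ≠ 0) : ∃ r k, Prof ψ w r k := by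
  classical
  have small := gr_small hψ
  have hex : ∃ c, ∃ u, co ψ u ≠ 0 ∧ u.count 1 = c := by
    obtain ⟨u, hu⟩ := exists_co_ne h0
    exact ⟨_, u, hu, rfl⟩
  obtain ⟨r, hr⟩ : ∃ r, r = Nat.find hex := ⟨_, rfl⟩
  have hspec : ∃ u, co ψ u ≠ 0 ∧ u.count 1 = r := by rw [hr]; exact Nat.find_spec hex
  have hmin : ∀ u, co ψ u ≠ 0 → r ≤ u.count 1 := by
    intro u hu
    rw [hr]
    exact Nat.find_min' hex ⟨u, hu, rfl⟩
  have hr1 : 1 ≤ r := by
    obtain ⟨u, hu, h1⟩ := hspec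
    rw [← h1]
    exact (small u hu).2
  have hF0 : ∀ v, co (Fp r ψ 0) v = if v.length = r then co ψ (wordX v) else 0 := by
    intro v
    rw [co_Fp, List.replicate_zero, List.append_nil]
  have hprim := gr_prims hψ hmin
  obtain ⟨k, v, hk, hv, hkv⟩ := Pool.Agent.H988R3.DM.taskTwoD H777DSH.H610.taskTwoA taskTwoB
    Pool.Agent.H352.DSH.taskTwoC ψ hψ.mem hψ.c0 hψ.c1 (fun u hu => (small u hu).1) r hr1 hmin
    hspec (Fp r ψ 0) hF0 (hprim 0)
  have hne : Fp r ψ k ≠ 0 := by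
    intro h
    have h1 := co_Fp r ψ k v
    rw [h, co_zero, if_pos hv] at h1
    exact hkv h1.symm
  have hbd : ∀ j, Fp r ψ j ≠ 0 → j ≤ w := by
    intro j hj
    obtain ⟨v, hv⟩ := exists_co_ne hj
    have := (co_Fp_ne hw hv).2
    omega
  refine ⟨r, Nat.findGreatest (fun j => Fp r ψ j ≠ 0) w, hr1, ?_, hw, hmin, ?_, ?_, hprim,
    gr_r0 hψ r⟩
  · exact le_trans hk (Nat.le_findGreatest (hbd k hne) hne)
  · exact Nat.findGreatest_spec (P := fun j => Fp r ψ j ≠ 0) (hbd k hne) hne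
  · intro j hj
    by_contra hcon
    exact Nat.findGreatest_is_greatest hj (hbd j hcon) hcon

theorem gr_homog (ψ₁ ψ₂ : A) (w₁ w₂ : ℕ) (h₁ : GR ψ₁) (h₂ : GR ψ₂) (hw₁ : LenHom ψ₁ w₁)
    (hw₂ : LenHom ψ₂ w₂) (hli : ∀ a b : ℚ, a • ψ₁ + b • ψ₂ = 0 → a = 0 ∧ b = 0) :
    Function.Injective (Phi ψ₁ ψ₂) := by
  have kl1 := Pool.Agent.H835R4.KL1.taskKL1
  have kl2 := Pool.Agent.H428R3.DMKL2.kl2
  have l1 := Pool.Agent.H337R3.Lead1.lead1
  have l2 := Pool.Agent.H777R4.DM.Lead2.lead2_ok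
  have sh := taskShear_proof
  have n1 : ψ₁ ≠ 0 := by
    intro h
    have := hli 1 0 (by rw [h]; simp)
    exact one_ne_zero this.1
  have n2 : ψ₂ ≠ 0 := by
    intro h
    have := hli 0 1 (by rw [h]; simp)
    exact one_ne_zero this.2
  obtain ⟨r₁, k₁, P₁⟩ := gr_prof h₁ hw₁ n1
  obtain ⟨r₂, k₂, P₂⟩ := gr_prof h₂ hw₂ n2
  by_cases hA : ∀ c : ℚ, Fp r₂ ψ₂ k₂ ≠ c • Fp r₁ ψ₁ k₁
  · refine caseA kl1 kl2 l1 l2 P₁ P₂ ?_ hA
    intro c hc
    have hc0 : c ≠ 0 := by
      rintro rfl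
      rw [zero_smul] at hc
      exact P₁.top hc
    apply hA c⁻¹
    rw [hc, smul_smul, inv_mul_cancel₀ hc0, one_smul]
  · push Not at hA
    obtain ⟨κ, hκ⟩ := hA
    have hκ0 : κ ≠ 0 := by
      rintro rfl
      rw [zero_smul] at hκ
      exact P₂.top hκ
    have hr : r₁ = r₂ := by
      obtain ⟨v, hv⟩ := exists_co_ne P₁.top
      have h1 := Fp_lenHom _ _ _ v hv
      have h2 : co (Fp r₂ ψ₂ k₂) v ≠ 0 := by
        rw [hκ, co_smul]; exact mul_ne_zero hκ0 hv
      have h3 := Fp_lenHom _ _ _ v h2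
      omega
    subst hr
    apply sh ψ₁ ψ₂ κ
    by_cases hw : w₁ = w₂
    · subst hw
      have hk : k₁ = k₂ := by
        obtain ⟨v, hv⟩ := exists_co_ne P₁.top
        have h1 := (co_Fp_ne P₁.hom hv).2
        have h2 : co (Fp r₁ ψ₂ k₂) v ≠ 0 := by
          rw [hκ, co_smul]; exact mul_ne_zero hκ0 hv
        have h3 := (co_Fp_ne P₂.hom h2).2
        omega
      subst hk
      have hne : ψ₂ - κ • ψ₁ ≠ 0 := by
        intro h
        have := hli (-κ) 1 (by rw [← h]; module)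
        exact one_ne_zero this.2
      obtain ⟨r', k', P'⟩ := gr_prof (gr_sub h₁ h₂ κ) (lenHom_sub hw₁ hw₂ κ) hne
      have hd : ∀ v, co (Fp r₁ ψ₁ k₁) v ≠ 0 → co (Fp r' (ψ₂ - κ • ψ₁) k') v ≠ 0 → False := by
        intro v hv1 hv2
        have e1 := co_Fp_ne P₁.hom hv1
        have e2 := co_Fp_ne P'.hom hv2
        have e3 : r' = r₁ := by omega
        subst e3
        have e4 : k' = k₁ := by omega
        subst e4
        apply P'.top
        rw [Fp_sub, hκ, sub_self]
      refine caseA kl1 kl2 l1 l2 P₁ P' (not_prop P₁.top ?_) (not_prop P'.top ?_)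
      · intro v hv
        by_contra hcon
        exact hd v hv hcon
      · intro v hv
        by_contra hcon
        exact hd v hcon hv
    · exact caseB2 kl1 kl2 l1 l2 P₁ P₂ κ hκ0 hw hκ

/-! ### components -/

/-- scaling of a solution -/
lemma evA_scale {E : Type} [Ring E] [Algebra ℚ E] (a c : E) (x : ℚ) (u : List (Fin 2)) :
    evA (x • a) (x • c) (wd u) = x ^ u.length • evA a c (wd u) := by
  induction u with
  | nil => rw [evA_nil, evA_nil]; simp
  | cons i u ih =>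
    rw [evA_cons, evA_cons, ih, List.length_cons]
    have : (![x • a, x • c] : Fin 2 → E) i = x • (![a, c] : Fin 2 → E) i := by
      fin_cases i <;> rfl
    rw [this, smul_mul_smul_comm, pow_succ, mul_comm x]

lemma evA_comp_scale {E : Type} [Ring E] [Algebra ℚ E] (a c : E) (x : ℚ) (n : ℕ) (P : A) :
    evA (x • a) (x • c) (comp n P) = x ^ n • evA a c (comp n P) := by
  have key : ((evA (x • a) (x • c)).toLinearMap ∘ₗ comp n) =
      x ^ n • ((evA a c).toLinearMap ∘ₗ comp n) := by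
    apply lin_ext
    intro u
    rw [LinearMap.smul_apply, LinearMap.comp_apply, LinearMap.comp_apply, AlgHom.toLinearMap_apply,
      AlgHom.toLinearMap_apply]
    unfold comp
    rw [lext_wd]
    split_ifs with h
    · rw [evA_scale, h]
    · rw [map_zero, map_zero, smul_zero]
  exact LinearMap.congr_fun key P

lemma exists_sum_comp (P : A) : ∃ N, P = ∑ n ∈ Finset.range N, comp n P := by
  induction P using al_induction with
  | h1 u =>
    refine ⟨u.length + 1, ?_⟩
    have h : ∀ n, comp n (wd u) = if u.length = n then wd u else 0 := by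
      intro n; unfold comp; rw [lext_wd]
    rw [Finset.sum_congr rfl (fun n _ => h n), Finset.sum_ite_eq,
      if_pos (Finset.mem_range.mpr (Nat.lt_succ_self _))]
  | h2 P Q hP hQ =>
    obtain ⟨N, hN⟩ := hP
    obtain ⟨M, hM⟩ := hQ
    have ext : ∀ (R : A) (K L : ℕ), R = ∑ n ∈ Finset.range K, comp n R → K ≤ L →
        R = ∑ n ∈ Finset.range L, comp n R := by
      intro R K L hR hKL
      have h0 : ∀ n, K ≤ n → comp n R = 0 := by
        intro n hn
        apply al_ext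
        intro l
        rw [co_comp, co_zero]
        split_ifs with hl
        · have h1 : co R l = co (∑ n ∈ Finset.range K, comp n R) l := congrArg (fun T => co T l) hR
          rw [h1]
          have : ∀ (s : Finset ℕ), co (∑ m ∈ s, comp m R) l = ∑ m ∈ s, co (comp m R) l := by
            intro s
            exact Lead2.co_sum s _ l
          rw [this]
          apply Finset.sum_eq_zero
          intro m hm
          rw [co_comp, if_neg]
          have := Finset.mem_range.mp hm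
          omega
        · rfl
      conv_lhs => rw [hR]
      refine Finset.sum_subset (Finset.range_mono hKL) ?_
      intro n _ hn
      exact h0 n (by simpa using hn)
    refine ⟨max N M, ?_⟩
    simp only [map_add, Finset.sum_add_distrib]
    rw [← ext P N _ hN (le_max_left _ _), ← ext Q M _ hM (le_max_right _ _)]
  | h3 c P hP =>
    obtain ⟨N, hN⟩ := hP
    refine ⟨N, ?_⟩
    simp only [map_smul]
    rw [← Finset.smul_sum, ← hN]

/-- vanishing of a vector valued polynomial -/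
lemma coeffs_zero {V : Type} [AddCommGroup V] [Module ℚ V] (N : ℕ) (v : ℕ → V)
    (h : ∀ x : ℚ, ∑ n ∈ Finset.range N, x ^ n • v n = 0) : ∀ n < N, v n = 0 := by
  intro n hn
  by_contra hne
  obtain ⟨f, hf⟩ : ∃ f : Module.Dual ℚ V, f (v n) ≠ 0 := by
    by_contra hcon
    push Not at hcon
    exact hne ((Module.forall_dual_apply_eq_zero_iff ℚ (v n)).mp hcon)
  have hp : (∑ m ∈ Finset.range N, Polynomial.C (f (v m)) * Polynomial.X ^ m : Polynomial ℚ) = 0 := by
    apply Polynomial.funext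
    intro x
    have h1 := congrArg f (h x)
    rw [map_sum, map_zero] at h1
    rw [Polynomial.eval_finsetSum, Polynomial.eval_zero, ← h1]
    refine Finset.sum_congr rfl fun m _ => ?_
    rw [Polynomial.eval_mul, Polynomial.eval_C, Polynomial.eval_pow, Polynomial.eval_X, map_smul,
      smul_eq_mul, mul_comm]
  have h2 := congrArg (fun p => Polynomial.coeff p n) hp
  simp only [Polynomial.finsetSum_coeff, Polynomial.coeff_C_mul_X_pow, Polynomial.coeff_zero] at h2
  rw [Finset.sum_ite_eq, if_pos (Finset.mem_range.mpr hn)] at h2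
  exact hf h2

lemma dk_smul {E : Type} [Ring E] [Algebra ℚ E] {t : Fin 4 → Fin 4 → E} (ht : DK t) (x : ℚ) :
    DK (fun i j => x • t i j) := by
  refine ⟨fun i j => by show x • t i j = x • t j i; rw [ht.1 i j], fun i j k l h => ?_,
    fun i j k h => ?_⟩
  · show ⁅x • t i j, x • t k l⁆ = 0
    rw [Ring.lie_def, smul_mul_smul_comm, smul_mul_smul_comm, ← smul_sub, ← Ring.lie_def,
      ht.2.1 i j k l h, smul_zero]
  · show ⁅x • t i j, x • t i k + x • t j k⁆ = 0
    rw [← smul_add, Ring.lie_def, smul_mul_smul_comm, smul_mul_smul_comm, ← smul_sub,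
      ← Ring.lie_def, ht.2.2 i j k h, smul_zero]

lemma pent_comp {ψ : A} (h : PentA ψ) (n : ℕ) : PentA (comp n ψ) := by
  obtain ⟨N, hN⟩ := exists_sum_comp ψ
  by_cases hn : n < N
  · intro E _ _ t ht
    have h1 := coeffs_zero N (fun n => evA (t 0 1) (t 1 2 + t 1 3) (comp n ψ) +
      evA (t 0 2 + t 1 2) (t 2 3) (comp n ψ) - (evA (t 1 2) (t 2 3) (comp n ψ) +
      evA (t 0 1 + t 0 2) (t 1 3 + t 2 3) (comp n ψ) + evA (t 0 1) (t 1 2) (comp n ψ))) (by
        intro x
        have h2 := h E (fun i j => x • t i j) (dk_smul ht x)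
        beta_reduce at h2
        simp only [← smul_add] at h2
        rw [hN] at h2
        simp only [map_sum, evA_comp_scale] at h2
        simp only [smul_sub, smul_add, Finset.sum_sub_distrib, Finset.sum_add_distrib]
        rw [h2, sub_self]) n hn
    exact sub_eq_zero.mp h1
  · have h0 : comp n ψ = 0 := by
      apply al_ext
      intro l
      rw [co_comp, co_zero]
      split_ifs with hl
      · have h1 : co ψ l = co (∑ n ∈ Finset.range N, comp n ψ) l := congrArg (fun T => co T l) hN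
        rw [h1, Lead2.co_sum]
        apply Finset.sum_eq_zero
        intro m hm
        rw [co_comp, if_neg]
        have := Finset.mem_range.mp hm
        omega
      · rfl
    rw [h0]
    exact gr_zero.pent

lemma lie_comp {ψ : A} (h : ψ ∈ LieX) (n : ℕ) : comp n ψ ∈ LieX :=
  (Pool.Agent.H217R3.DMC.LieX_le h) n

lemma gr_comp {ψ : A} (h : GR ψ) (n : ℕ) : GR (comp n ψ) := by
  refine ⟨lie_comp h.mem n, ?_, ?_, ?_, pent_comp h.pent n⟩
  · rw [co_comp, h.c0]; simp
  · rw [co_comp, h.c1]; simp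
  · rw [co_comp, h.c01]; simp

/-! ### the inhomogeneous case -/

lemma gr_low_indep {ψ₁ ψ₂ : A} (h₁ : GR ψ₁)
    (h₂ : GR ψ₂) {w₁ w₂ : ℕ} (l₁ : ∀ u, co ψ₁ u ≠ 0 → w₁ ≤ u.length)
    (l₂ : ∀ u, co ψ₂ u ≠ 0 → w₂ ≤ u.length)
    (hli : ∀ a b : ℚ, a • comp w₁ ψ₁ + b • comp w₂ ψ₂ = 0 → a = 0 ∧ b = 0) :
    Function.Injective (Phi ψ₁ ψ₂) := by
  refine Pool.Agent.H28R3.DM.Low.low ![ψ₁, ψ₂] ![w₁, w₂] ?_ ?_
  · rw [Fin.forall_fin_two]
    exact ⟨l₁, l₂⟩
  · exact gr_homog _ _ w₁ w₂ (gr_comp h₁ w₁) (gr_comp h₂ w₂) (comp_lenHom w₁ ψ₁)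
      (comp_lenHom w₂ ψ₂) hli

/-- **Main theorem.** -/
theorem gr_inj {ψ₁ ψ₂ : A} (h₁ : GR ψ₁) (h₂ : GR ψ₂)
    (hli : ∀ a b : ℚ, a • ψ₁ + b • ψ₂ = 0 → a = 0 ∧ b = 0) :
    Function.Injective (Phi ψ₁ ψ₂) := by
  have n1 : ψ₁ ≠ 0 := by
    intro h
    have := hli 1 0 (by rw [h]; simp)
    exact one_ne_zero this.1
  have n2 : ψ₂ ≠ 0 := by
    intro h
    have := hli 0 1 (by rw [h]; simp)
    exact one_ne_zero this.2
  obtain ⟨w₁, l₁, c₁⟩ := exists_low n1
  obtain ⟨w₂, l₂, c₂⟩ := exists_low n2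
  by_cases hA : ∀ c : ℚ, comp w₂ ψ₂ ≠ c • comp w₁ ψ₁
  · refine gr_low_indep h₁ h₂ l₁ l₂ ?_
    intro a b hab
    have hb : b = 0 := by
      by_contra hb
      apply hA (-(b⁻¹ * a))
      have h3 : b • comp w₂ ψ₂ = - (a • comp w₁ ψ₁) := eq_neg_of_add_eq_zero_right hab
      have h4 : comp w₂ ψ₂ = b⁻¹ • (b • comp w₂ ψ₂) := by
        rw [smul_smul, inv_mul_cancel₀ hb, one_smul]
      rw [h4, h3]
      module
    refine ⟨?_, hb⟩
    rw [hb, zero_smul, add_zero] at hab
    exact (smul_eq_zero.mp hab).resolve_right c₁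
  · push Not at hA
    obtain ⟨κ, hκ⟩ := hA
    have hκ0 : κ ≠ 0 := by
      rintro rfl
      rw [zero_smul] at hκ
      exact c₂ hκ
    have hw : w₁ = w₂ := by
      obtain ⟨u, hu⟩ := exists_co_ne c₁
      have h1 := comp_lenHom _ _ u hu
      have h2 : co (comp w₂ ψ₂) u ≠ 0 := by
        rw [hκ, co_smul]; exact mul_ne_zero hκ0 hu
      have h3 := comp_lenHom _ _ u h2
      omega
    subst hw
    apply taskShear_proof ψ₁ ψ₂ κ
    have hne : ψ₂ - κ • ψ₁ ≠ 0 := by
      intro h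
      have := hli (-κ) 1 (by rw [← h]; module)
      exact one_ne_zero this.2
    have hd := gr_sub h₁ h₂ κ
    obtain ⟨w₃, l₃, c₃⟩ := exists_low hne
    refine gr_low_indep h₁ hd l₁ l₃ ?_
    refine indep_of_ne (comp_lenHom _ _) (comp_lenHom _ _) c₁ c₃ ?_
    rintro rfl
    apply c₃
    rw [map_sub, map_smul, hκ, sub_self]

/-! ### many generators -/

theorem gr_case {n r R : ℕ} {ψ : Fin n → A} {wt : Fin n → ℕ} {W : Finset ℕ}
    (hr : 1 ≤ r) (hR : R + 1 ≤ 2 * r) (hW : ∀ w ∈ W, W.card * R < w)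
    (hwt : ∀ i, wt i ∈ W) (hdm : ∀ i, GR (ψ i)) (hhom : ∀ i, LenHom (ψ i) (wt i))
    (hcnt : ∀ i u, co (ψ i) u ≠ 0 → r ≤ u.count 1)
    (hind : ∀ c : Fin n → ℚ, (∀ u, u.count 1 ≤ R → co (cmb ψ c) u = 0) → c = 0) :
    Function.Injective (PhiN ψ) := by
  have hd : ∀ c w, GR (cmw ψ wt c w) := by
    intro c w
    unfold cmw
    exact gr_sum _ _ fun i _ => gr_smul (hdm i) _
  refine core2 Pool.Agent.H337R3.Lead1.lead1 Pool.Agent.H861R3.DM.LeadN.leadN_ok
    Pool.Agent.H630R3.DM.FreeP.taskFreeP Pool.Agent.H777R4.DM.R0.taskR0 taskVan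
    Pool.Agent.H553R3.taskAdMu Pool.Agent.H826R3.DM.taskShearN hr hR hwt hhom
    (fun i => (hdm i).mem) (fun i => (hdm i).c0) hcnt hind ?_ ?_
  · intro c w hw ρ hρr hρR hdep hu
    obtain ⟨k, hk, hkne⟩ := Pool.Agent.H30R3.DSNKB.taskKB Pool.Agent.H777R4.DM.R0.taskR0 taskTwoB _ ρ
      w (hd c w).mem (hd c w).c0 (cmw_hom hhom c w) (by omega) hdep hu (gr_prims (hd c w) hdep 0)
    refine ⟨k, ?_, hkne⟩
    have h1 := hW w hw
    have h2 : W.card * ρ ≤ W.card * R := Nat.mul_le_mul_left _ hρR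
    have h3 : W.card * ρ < (k + 1) * ρ := by
      have h4 : (k + 1) * ρ = ρ * k + ρ := by ring
      omega
    have := Nat.lt_of_mul_lt_mul_right h3
    omega
  · intro c w hw ρ hρr hρR hdep
    exact gr_prims (hd c w) hdep

end Pool.Agent.Y117.GRT
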