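import Pool.Agent.H777R4.DM.Basic

/-! A module over the infinitesimal braid Lie algebra on four strands, with underlying space
`ℚ⟨Y⟩ ⊗ ℚ⟨Y⟩`. -/

set_option autoImplicit false

namespace Pool.Agent.Y117.GRT

open Pool.Agent.H777R4.DM

attribute [local instance 100] LieRing.ofAssociativeRing

/-- the pair of words `p ⊗ q` -/
noncomputable def b (p q : List ℕ) : AYY :=
  MonoidAlgebra.of ℚ (FreeMonoid ℕ × FreeMonoid ℕ) (FreeMonoid.ofList p, FreeMonoid.ofList q)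

/-- linear extension -/
noncomputable def blext {V : Type} [AddCommGroup V] [Module ℚ V] (F : List ℕ → List ℕ → V) :
    AYY →ₗ[ℚ] V :=
  (Finsupp.linearCombination ℚ (fun m : FreeMonoid ℕ × FreeMonoid ℕ =>
    F (FreeMonoid.toList m.1) (FreeMonoid.toList m.2))) ∘ₗ
    (MonoidAlgebra.coeffLinearEquiv ℚ).toLinearMap

lemma blext_b {V : Type} [AddCommGroup V] [Module ℚ V] (F : List ℕ → List ℕ → V) (p q : List ℕ) :
    blext F (b p q) = F p q := by
  unfold blext b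
  simp only [LinearMap.comp_apply, MonoidAlgebra.of_apply]
  show (Finsupp.linearCombination ℚ _)
    (Finsupp.single (FreeMonoid.ofList p, FreeMonoid.ofList q) (1 : ℚ)) = _
  rw [Finsupp.linearCombination_single, one_smul]
  rfl

lemma ayy_induction {P : AYY → Prop} (ξ : AYY) (h1 : ∀ p q, P (b p q))
    (h2 : ∀ x y, P x → P y → P (x + y)) (h3 : ∀ (c : ℚ) x, P x → P (c • x)) : P ξ :=
  MonoidAlgebra.induction_on ξ (fun m => h1 (FreeMonoid.toList m.1) (FreeMonoid.toList m.2)) h2 h3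

lemma blin_ext {V : Type} [AddCommGroup V] [Module ℚ V] {F G : AYY →ₗ[ℚ] V}
    (h : ∀ p q, F (b p q) = G (b p q)) : F = G := by
  refine LinearMap.ext fun P => ?_
  induction P using ayy_induction with
  | h1 p q => exact h p q
  | h2 P Q hP hQ => rw [map_add, map_add, hP, hQ]
  | h3 c P hP => rw [map_smul, map_smul, hP]

/-- `p ⊗ c w ↦ p ⊗ (c+1) w` -/
noncomputable def R0 : Module.End ℚ AYY := blext fun p q => match q with
  | [] => 0
  | c :: w => b p ((c + 1) :: w)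
/-- `p ⊗ c w ↦ p c ⊗ 0 w` -/
noncomputable def E0 : Module.End ℚ AYY := blext fun p q => match q with
  | [] => 0
  | c :: w => b (p ++ [c]) (0 :: w)
noncomputable def X0 : Module.End ℚ AYY := R0 + E0
/-- the element `X₁ + Z` -/
noncomputable def Sg : Module.End ℚ AYY := (blext fun p q => b p (0 :: q)) - E0
noncomputable def Y0 : Module.End ℚ AYY := blext fun p q => match p with
  | [] => (match q with
    | [] => 0
    | c :: w => b [] ((c + 1) :: w))
  | a :: p' => b ((a + 1) :: p') q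
noncomputable def Y1 : Module.End ℚ AYY := blext fun p q => b (0 :: p) q
noncomputable def Zz : Module.End ℚ AYY := blext fun p q => match p with
  | [] => b [] (0 :: q)
  | _ :: _ => 0
noncomputable def X1 : Module.End ℚ AYY := Sg - Zz

lemma R0_nil (p : List ℕ) : R0 (b p []) = 0 := by unfold R0; rw [blext_b]
lemma R0_cons (p : List ℕ) (c : ℕ) (w : List ℕ) : R0 (b p (c :: w)) = b p ((c + 1) :: w) := by
  unfold R0; rw [blext_b]
lemma E0_nil (p : List ℕ) : E0 (b p []) = 0 := by unfold E0; rw [blext_b]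
lemma E0_cons (p : List ℕ) (c : ℕ) (w : List ℕ) : E0 (b p (c :: w)) = b (p ++ [c]) (0 :: w) := by
  unfold E0; rw [blext_b]
lemma X0_nil (p : List ℕ) : X0 (b p []) = 0 := by
  unfold X0; rw [LinearMap.add_apply, R0_nil, E0_nil, add_zero]
lemma X0_cons (p : List ℕ) (c : ℕ) (w : List ℕ) :
    X0 (b p (c :: w)) = b p ((c + 1) :: w) + b (p ++ [c]) (0 :: w) := by
  unfold X0; rw [LinearMap.add_apply, R0_cons, E0_cons]
lemma Sg_nil (p : List ℕ) : Sg (b p []) = b p [0] := by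
  unfold Sg; rw [LinearMap.sub_apply, blext_b, E0_nil, sub_zero]
lemma Sg_cons (p : List ℕ) (c : ℕ) (w : List ℕ) :
    Sg (b p (c :: w)) = b p (0 :: c :: w) - b (p ++ [c]) (0 :: w) := by
  unfold Sg; rw [LinearMap.sub_apply, blext_b, E0_cons]
lemma Y0_nn : Y0 (b [] []) = 0 := by unfold Y0; rw [blext_b]
lemma Y0_nc (c : ℕ) (w : List ℕ) : Y0 (b [] (c :: w)) = b [] ((c + 1) :: w) := by
  unfold Y0; rw [blext_b]
lemma Y0_c (a : ℕ) (p q : List ℕ) : Y0 (b (a :: p) q) = b ((a + 1) :: p) q := by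
  unfold Y0; rw [blext_b]
lemma Y1_b (p q : List ℕ) : Y1 (b p q) = b (0 :: p) q := by unfold Y1; rw [blext_b]
lemma Zz_n (q : List ℕ) : Zz (b [] q) = b [] (0 :: q) := by unfold Zz; rw [blext_b]
lemma Zz_c (a : ℕ) (p q : List ℕ) : Zz (b (a :: p) q) = 0 := by unfold Zz; rw [blext_b]
lemma X1_nn : X1 (b [] []) = 0 := by
  unfold X1; rw [LinearMap.sub_apply, Sg_nil, Zz_n, sub_self]
lemma X1_nc (c : ℕ) (w : List ℕ) : X1 (b [] (c :: w)) = - b [c] (0 :: w) := by
  unfold X1; rw [LinearMap.sub_apply, Sg_cons, Zz_n]; simp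
lemma X1_cn (a : ℕ) (p : List ℕ) : X1 (b (a :: p) []) = b (a :: p) [0] := by
  unfold X1; rw [LinearMap.sub_apply, Sg_nil, Zz_c, sub_zero]
lemma X1_cc (a : ℕ) (p : List ℕ) (c : ℕ) (w : List ℕ) : X1 (b (a :: p) (c :: w)) =
    b (a :: p) (0 :: c :: w) - b (a :: (p ++ [c])) (0 :: w) := by
  unfold X1; rw [LinearMap.sub_apply, Sg_cons, Zz_c, sub_zero]; rfl

/-- case analysis tactic-free helper: equality of endomorphisms on the four kinds of basis vectors -/
lemma end_ext {F G : Module.End ℚ AYY} (h1 : F (b [] []) = G (b [] []))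
    (h2 : ∀ c w, F (b [] (c :: w)) = G (b [] (c :: w)))
    (h3 : ∀ a p, F (b (a :: p) []) = G (b (a :: p) []))
    (h4 : ∀ a p c w, F (b (a :: p) (c :: w)) = G (b (a :: p) (c :: w))) : F = G := by
  refine blin_ext fun p q => ?_
  rcases p with _ | ⟨a, p⟩ <;> rcases q with _ | ⟨c, w⟩
  · exact h1
  · exact h2 c w
  · exact h3 a p
  · exact h4 a p c w

lemma r1 : X0 * Y0 = Y0 * X0 := by
  apply end_ext
  · simp [Y0_nn, X0_nil]
  · intro c w; simp [Y0_nc, X0_cons, Y0_c]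
  · intro a p; simp [Y0_c, X0_nil]
  · intro a p c w; simp [Y0_c, X0_cons]

lemma r2 : X0 * Y1 = Y1 * X0 := by
  apply end_ext
  · simp [Y1_b, X0_nil]
  · intro c w; simp [Y1_b, X0_cons]
  · intro a p; simp [Y1_b, X0_nil]
  · intro a p c w; simp [Y1_b, X0_cons]

lemma r3 : X1 * Y0 = Y0 * X1 := by
  apply end_ext
  · simp [Y0_nn, X1_nn]
  · intro c w; simp [Y0_nc, X1_nc, Y0_c]
  · intro a p; simp [Y0_c, X1_cn]
  · intro a p c w; simp [Y0_c, X1_cc]

lemma r4 : X1 * Y1 - Y1 * X1 = Y1 * Zz - Zz * Y1 := by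
  apply end_ext
  · simp [Y1_b, X1_nn, X1_cn, Zz_n, Zz_c]
  · intro c w; simp [Y1_b, X1_nc, X1_cc, Zz_n, Zz_c]
  · intro a p; simp [Y1_b, X1_cn, Zz_c]
  · intro a p c w; simp [Y1_b, X1_cc, Zz_c]

lemma r5 : X1 * Zz - Zz * X1 = Zz * Y1 - Y1 * Zz := by
  apply end_ext
  · simp [Y1_b, X1_nn, X1_nc, Zz_n, Zz_c]
  · intro c w; simp [Y1_b, X1_nc, Zz_n, Zz_c]
  · intro a p; simp [Y1_b, X1_cn, Zz_c]
  · intro a p c w; simp [Y1_b, X1_cc, Zz_c]

lemma r6 : X0 * Zz - Zz * X0 = (Y0 + Y1) * Zz - Zz * (Y0 + Y1) := by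
  apply end_ext
  · simp [Y1_b, Y0_nn, Y0_nc, X0_nil, X0_cons, Zz_n, Zz_c]
  · intro c w; simp [Y1_b, Y0_nc, X0_cons, Zz_n, Zz_c]; 
  · intro a p; simp [Y1_b, Y0_c, X0_nil, Zz_c]
  · intro a p c w; simp [Y1_b, Y0_c, X0_cons, Zz_c]

end Pool.Agent.Y117.GRT
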