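import Pool.Agent.Y117.GRT.Mod

/-! The infinitesimal braid relations and the pentagon. -/

set_option autoImplicit false

namespace Pool.Agent.Y117.GRT

open Pool.Agent.H777R4.DM

attribute [local instance 100] LieRing.ofAssociativeRing

/-- The infinitesimal braid relations on four strands. -/
def DK {L : Type} [LieRing L] (t : Fin 4 → Fin 4 → L) : Prop :=
  (∀ i j, t i j = t j i) ∧
  (∀ i j k l, [i, j, k, l].Nodup → ⁅t i j, t k l⁆ = 0) ∧
  (∀ i j k, [i, j, k].Nodup → ⁅t i j, t i k + t j k⁆ = 0)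

/-- `P(a, c)` in an associative algebra -/
noncomputable def evA {E : Type} [Ring E] [Algebra ℚ E] (a c : E) : A →ₐ[ℚ] E :=
  MonoidAlgebra.lift ℚ E (FreeMonoid (Fin 2)) (FreeMonoid.lift ![a, c])

/-- the pentagon equation in `E` -/
def PentA (P : A) : Prop := ∀ (E : Type) [Ring E] [Algebra ℚ E] (t : Fin 4 → Fin 4 → E), DK t →
  evA (t 0 1) (t 1 2 + t 1 3) P + evA (t 0 2 + t 1 2) (t 2 3) P =
    evA (t 1 2) (t 2 3) P + evA (t 0 1 + t 0 2) (t 1 3 + t 2 3) P + evA (t 0 1) (t 1 2) P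

section ring
variable {R : Type} [Ring R] (a₀ a₁ c₀ c₁ z : R)

/-- the six elements from `X₀, X₁, Y₀, Y₁, Z` -/
def tm : Fin 4 → Fin 4 → R :=
  ![![0, a₀, c₀ - a₀ - a₁, -(c₀ + c₁ + z)],
    ![a₀, 0, a₁, z],
    ![c₀ - a₀ - a₁, a₁, 0, c₁],
    ![-(c₀ + c₁ + z), z, c₁, 0]]

lemma dk_tm (h1 : a₀ * c₀ = c₀ * a₀) (h2 : a₀ * c₁ = c₁ * a₀) (h3 : a₁ * c₀ = c₀ * a₁)
    (h4 : a₁ * c₁ - c₁ * a₁ = c₁ * z - z * c₁) (h5 : a₁ * z - z * a₁ = z * c₁ - c₁ * z)
    (h6 : a₀ * z - z * a₀ = (c₀ + c₁) * z - z * (c₀ + c₁)) : DK (tm a₀ a₁ c₀ c₁ z) := by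
  refine ⟨?_, ?_, ?_⟩
  · intro i j
    fin_cases i <;> fin_cases j <;> rfl
  · intro i j k l h
    have e12 : ⁅a₀, c₁⁆ = 0 := by rw [Ring.lie_def, h2, sub_self]
    have e13 : ⁅c₀ - a₀ - a₁, z⁆ = 0 := by
      rw [Ring.lie_def]
      linear_combination (norm := noncomm_ring) -h6 - h5
    have e14 : ⁅-(c₀ + c₁ + z), a₁⁆ = 0 := by
      rw [Ring.lie_def]
      linear_combination (norm := noncomm_ring) h3 + h4 + h5
    have f12 : ⁅c₁, a₀⁆ = 0 := by rw [← lie_skew, e12, neg_zero]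
    have f13 : ⁅z, c₀ - a₀ - a₁⁆ = 0 := by rw [← lie_skew, e13, neg_zero]
    have f14 : ⁅a₁, -(c₀ + c₁ + z)⁆ = 0 := by rw [← lie_skew, e14, neg_zero]
    fin_cases i <;> fin_cases j <;> fin_cases k <;> fin_cases l <;>
      first
        | (exfalso; revert h; decide)
        | exact e12
        | exact e13
        | exact e14
        | exact f12
        | exact f13
        | exact f14
  · intro i j k h
    have g1 : ⁅a₀, (c₀ - a₀ - a₁) + a₁⁆ = 0 := by
      rw [Ring.lie_def]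
      linear_combination (norm := noncomm_ring) h1
    have g2 : ⁅c₀ - a₀ - a₁, a₀ + a₁⁆ = 0 := by
      rw [Ring.lie_def]
      linear_combination (norm := noncomm_ring) -h1 - h3
    have g3 : ⁅a₁, a₀ + (c₀ - a₀ - a₁)⁆ = 0 := by
      rw [Ring.lie_def]
      linear_combination (norm := noncomm_ring) h3
    have g4 : ⁅a₁, z + c₁⁆ = 0 := by
      rw [Ring.lie_def]
      linear_combination (norm := noncomm_ring) h4 + h5
    have g5 : ⁅z, a₁ + c₁⁆ = 0 := by
      rw [Ring.lie_def]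
      linear_combination (norm := noncomm_ring) -h5
    have g6 : ⁅c₁, a₁ + z⁆ = 0 := by
      rw [Ring.lie_def]
      linear_combination (norm := noncomm_ring) -h4
    have g7 : ⁅a₀, -(c₀ + c₁ + z) + z⁆ = 0 := by
      rw [Ring.lie_def]
      linear_combination (norm := noncomm_ring) -h1 - h2
    have g8 : ⁅z, a₀ + -(c₀ + c₁ + z)⁆ = 0 := by
      rw [Ring.lie_def]
      linear_combination (norm := noncomm_ring) -h6
    have g9 : ⁅-(c₀ + c₁ + z), a₀ + z⁆ = 0 := by
      rw [Ring.lie_def]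
      linear_combination (norm := noncomm_ring) h1 + h2 + h6
    have g10 : ⁅c₀ - a₀ - a₁, -(c₀ + c₁ + z) + c₁⁆ = 0 := by
      rw [Ring.lie_def]
      linear_combination (norm := noncomm_ring) h1 + h3 + h6 + h5
    have g11 : ⁅c₁, (c₀ - a₀ - a₁) + -(c₀ + c₁ + z)⁆ = 0 := by
      rw [Ring.lie_def]
      linear_combination (norm := noncomm_ring) h2 + h4
    have g12 : ⁅-(c₀ + c₁ + z), (c₀ - a₀ - a₁) + c₁⁆ = 0 := by
      rw [Ring.lie_def]
      linear_combination (norm := noncomm_ring) -h1 - h2 - h3 - h4 - h5 - h6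
    fin_cases i <;> fin_cases j <;> fin_cases k <;>
      first
        | (exfalso; revert h; decide)
        | exact g1
        | exact g2
        | exact g3
        | exact g4
        | exact g5
        | exact g6
        | exact g7
        | exact g8
        | exact g9
        | exact g10
        | exact g11
        | exact g12
        | (rw [add_comm]; first | exact g1 | exact g2 | exact g3 | exact g4 | exact g5 | exact g6 | exact g7 | exact g8 | exact g9 | exact g10 | exact g11 | exact g12)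

end ring

end Pool.Agent.Y117.GRT
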