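import Pool.Agent.Y117.GRT.Pent
import Pool.Agent.H777R4.DM.Lead2

/-! Evaluation of the pentagon on the vacuum: the lowest depth part of a solution of the pentagon is
primitive in the letters `y_k`. -/

set_option autoImplicit false

namespace Pool.Agent.Y117.GRT

open Pool.Agent.H777R4.DM

attribute [local instance 100] LieRing.ofAssociativeRing

lemma evA_nil {E : Type} [Ring E] [Algebra ℚ E] (a c : E) : evA a c (wd []) = 1 := by
  have : (wd [] : A) = 1 := Lead2.wd_nil
  rw [this, map_one]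

lemma evA_letter {E : Type} [Ring E] [Algebra ℚ E] (a c : E) (i : Fin 2) :
    evA a c (wd [i]) = ![a, c] i := by
  unfold evA wd
  rw [MonoidAlgebra.lift_of]
  exact FreeMonoid.lift_eval_of _ _

lemma evA_cons {E : Type} [Ring E] [Algebra ℚ E] (a c : E) (i : Fin 2) (u : List (Fin 2)) :
    evA a c (wd (i :: u)) = ![a, c] i * evA a c (wd u) := by
  have : (wd (i :: u) : A) = wd [i] * wd u := by rw [wd_mul]; rfl
  rw [this, map_mul, evA_letter]

lemma evA_cons0 {E : Type} [Ring E] [Algebra ℚ E] (a c : E) (u : List (Fin 2)) :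
    evA a c (wd (0 :: u)) = a * evA a c (wd u) := evA_cons a c 0 u
lemma evA_cons1 {E : Type} [Ring E] [Algebra ℚ E] (a c : E) (u : List (Fin 2)) :
    evA a c (wd (1 :: u)) = c * evA a c (wd u) := evA_cons a c 1 u

/-- the vacuum -/
noncomputable def v0 : AYY := b [] []

/-- `P ↦ P(a, c) v0` -/
noncomputable def vac (a c : Module.End ℚ AYY) : A →ₗ[ℚ] AYY :=
  (LinearMap.applyₗ v0) ∘ₗ (evA a c).toLinearMap

lemma vac_apply (a c : Module.End ℚ AYY) (P : A) : vac a c P = evA a c P v0 := rfl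

lemma vac_nil (a c : Module.End ℚ AYY) : vac a c (wd []) = v0 := by
  rw [vac_apply, evA_nil]; rfl
lemma vac_0 (a c : Module.End ℚ AYY) (u : List (Fin 2)) :
    vac a c (wd (0 :: u)) = a (vac a c (wd u)) := by
  rw [vac_apply, evA_cons0]; rfl
lemma vac_1 (a c : Module.End ℚ AYY) (u : List (Fin 2)) :
    vac a c (wd (1 :: u)) = c (vac a c (wd u)) := by
  rw [vac_apply, evA_cons1]; rfl

lemma inl_wd (p : List ℕ) : inl (wd p) = b p [] := by
  unfold inl wd b
  rw [MonoidAlgebra.of_apply, MonoidAlgebra.mapDomainAlgHom_apply, MonoidAlgebra.mapDomain_single,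
    MonoidAlgebra.of_apply]
  rfl

lemma inr_wd (p : List ℕ) : inr (wd p) = b [] p := by
  unfold inr wd b
  rw [MonoidAlgebra.of_apply, MonoidAlgebra.mapDomainAlgHom_apply, MonoidAlgebra.mapDomain_single,
    MonoidAlgebra.of_apply]
  rfl

lemma b_mul (p q p' q' : List ℕ) : b p q * b p' q' = b (p ++ p') (q ++ q') := by
  unfold b
  rw [← map_mul]
  rfl

/-! ### the terms of the pentagon -/

lemma strip_0_nil {u : List (Fin 2)} (h : (strip u).1 = []) :
    strip (0 :: u) = ([], (strip u).2 + 1) := by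
  simp [strip, h]
lemma strip_0_cons {u : List (Fin 2)} {a : ℕ} {l : List ℕ} (h : (strip u).1 = a :: l) :
    strip (0 :: u) = ((a + 1) :: l, (strip u).2) := by
  simp [strip, h]
lemma strip_1 (u : List (Fin 2)) : strip (1 :: u) = (0 :: (strip u).1, (strip u).2) := by
  simp [strip]

lemma run0_wd (u : List (Fin 2)) : run 0 (wd u) = if (strip u).2 = 0 then wd (strip u).1 else 0 := by
  unfold run; rw [lext_wd]

/-- general recursion: an operator pair acting on words -/
lemma vac_run {V : Type} [AddCommGroup V] [Module ℚ V] (f : A →ₗ[ℚ] V) (o0 o1 : V → V)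
    (g : List ℕ → V)
    (hn : f (wd []) = g []) (h0 : ∀ u, f (wd (0 :: u)) = o0 (f (wd u)))
    (h1 : ∀ u, f (wd (1 :: u)) = o1 (f (wd u))) (z0 : o0 0 = 0) (z1 : o1 0 = 0)
    (g0 : o0 (g []) = 0) (g1 : ∀ a l, o0 (g (a :: l)) = g ((a + 1) :: l))
    (g2 : ∀ l, o1 (g l) = g (0 :: l)) (P : A) : f P = lext g (run 0 P) := by
  induction P using al_induction with
  | h2 P Q hP hQ => rw [map_add, map_add, map_add, hP, hQ]
  | h3 c P hP => rw [map_smul, map_smul, map_smul, hP]
  | h1 u =>
    induction u with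
    | nil => rw [run0_wd, strip_nil, if_pos rfl, lext_wd, hn]
    | cons i u ih =>
      rw [run0_wd] at ih
      by_cases hi : i = 1
      · subst hi
        rw [h1, ih, run0_wd, strip_1]
        by_cases h : (strip u).2 = 0
        · rw [if_pos h, if_pos h, lext_wd, lext_wd, g2]
        · rw [if_neg h, if_neg h, map_zero, z1]
      · have hi0 : i = 0 := by omega
        subst hi0
        rw [h0, ih, run0_wd]
        rcases h : (strip u).1 with _ | ⟨a, l⟩
        · rw [strip_0_nil h, if_neg (Nat.succ_ne_zero _), map_zero]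
          by_cases h2 : (strip u).2 = 0
          · rw [if_pos h2, lext_wd, g0]
          · rw [if_neg h2, map_zero, z0]
        · rw [strip_0_cons h]
          by_cases h2 : (strip u).2 = 0
          · rw [if_pos h2, if_pos h2, lext_wd, lext_wd, g1]
          · rw [if_neg h2, if_neg h2, map_zero, z0]

lemma lext_inl (P : AY) : lext (fun v => b v []) P = inl P := by
  have : lext (fun v => b v []) = inl.toLinearMap := by
    apply lin_ext
    intro l
    rw [lext_wd, AlgHom.toLinearMap_apply, inl_wd]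
  rw [this]; rfl

lemma lext_inr (P : AY) : lext (fun v => b [] v) P = inr P := by
  have : lext (fun v => b [] v) = inr.toLinearMap := by
    apply lin_ext
    intro l
    rw [lext_wd, AlgHom.toLinearMap_apply, inr_wd]
  rw [this]; rfl

lemma vacE (P : A) : vac (Y0 - X0 - X1 + X1) Y1 P = inl (run 0 P) := by
  rw [← lext_inl]
  have hz : Y0 - X0 - X1 + X1 = Y0 - X0 := by abel
  rw [hz]
  refine vac_run _ (fun ξ => (Y0 - X0) ξ) (fun ξ => Y1 ξ) (fun v => b v []) (vac_nil _ _) (vac_0 _ _) (vac_1 _ _)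
    (map_zero _) (map_zero _) ?_ ?_ ?_ P
  · show (Y0 - X0) (b [] []) = 0
    rw [LinearMap.sub_apply, Y0_nn, X0_nil, sub_zero]
  · intro a l
    show (Y0 - X0) (b (a :: l) []) = _
    rw [LinearMap.sub_apply, Y0_c, X0_nil, sub_zero]
  · intro l
    exact Y1_b l []

/-- prepend a letter to the left word -/
noncomputable def cn (a : ℕ) : AYY →ₗ[ℚ] AYY := blext fun p q => b (a :: p) q
lemma cn_b (a : ℕ) (p q : List ℕ) : cn a (b p q) = b (a :: p) q := by unfold cn; rw [blext_b]

/-- deconcatenation -/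
noncomputable def dc : List ℕ → AYY
  | [] => b [] []
  | a :: v => b [] (a :: v) + cn a (dc v)

lemma X1_cn' (a : ℕ) (ξ : AYY) : X1 (cn a ξ) = cn a (Sg ξ) := by
  have : X1 ∘ₗ cn a = cn a ∘ₗ Sg := by
    apply blin_ext
    intro p q
    rw [LinearMap.comp_apply, LinearMap.comp_apply, cn_b]
    rcases q with _ | ⟨c, w⟩
    · rw [X1_cn, Sg_nil, cn_b]
    · rw [X1_cc, Sg_cons, map_sub, cn_b, cn_b]
  exact LinearMap.congr_fun this ξ

lemma Zz_cn (a : ℕ) (ξ : AYY) : Zz (cn a ξ) = 0 := by
  have : Zz ∘ₗ cn a = 0 := by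
    apply blin_ext
    intro p q
    rw [LinearMap.comp_apply, cn_b, Zz_c, LinearMap.zero_apply]
  exact LinearMap.congr_fun this ξ

lemma Y1_cn (ξ : AYY) : Y1 ξ = cn 0 ξ := by
  have : Y1 = cn 0 := by
    apply blin_ext
    intro p q
    rw [cn_b, Y1_b]
  rw [this]

lemma Y0_cn (a : ℕ) (ξ : AYY) : Y0 (cn a ξ) = cn (a + 1) ξ := by
  have : Y0 ∘ₗ cn a = cn (a + 1) := by
    apply blin_ext
    intro p q
    rw [LinearMap.comp_apply, cn_b, cn_b, Y0_c]
  exact LinearMap.congr_fun this ξ

lemma Zz_dc (v : List ℕ) : Zz (dc v) = b [] (0 :: v) := by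
  rcases v with _ | ⟨a, v⟩
  · unfold dc; rw [Zz_n]
  · unfold dc; rw [map_add, Zz_n, Zz_cn, add_zero]

lemma X1_dc (v : List ℕ) : X1 (dc v) = 0 := by
  induction v with
  | nil => unfold dc; exact X1_nn
  | cons a v ih =>
    have h : Sg (dc v) = b [] (0 :: v) := by
      have h1 : X1 (dc v) = Sg (dc v) - Zz (dc v) := by unfold X1; rw [LinearMap.sub_apply]
      rw [ih, Zz_dc] at h1
      exact (sub_eq_zero.mp h1.symm)
    unfold dc
    rw [map_add, X1_nc, X1_cn', h, cn_b, neg_add_cancel]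

lemma vacC (P : A) : vac (X0 + (Y0 - X0 - X1)) (Zz + Y1) P = lext dc (run 0 P) := by
  have hz : X0 + (Y0 - X0 - X1) = Y0 - X1 := by abel
  rw [hz]
  refine vac_run _ (fun ξ => (Y0 - X1) ξ) (fun ξ => (Zz + Y1) ξ) dc (vac_nil _ _) (vac_0 _ _)
    (vac_1 _ _) (map_zero _) (map_zero _) ?_ ?_ ?_ P
  · show (Y0 - X1) (b [] []) = 0
    rw [LinearMap.sub_apply, Y0_nn, X1_nn, sub_zero]
  · intro a l
    show (Y0 - X1) (dc (a :: l)) = _
    rw [LinearMap.sub_apply, X1_dc, sub_zero]
    unfold dc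
    rw [map_add, Y0_nc, Y0_cn]
  · intro l
    show (Zz + Y1) (dc l) = _
    rw [LinearMap.add_apply, Zz_dc, Y1_cn]
    rfl

lemma vacA (P : A) (h : co P [] = 0) : vac X0 X1 P = 0 := by
  have key : ∀ u : List (Fin 2), vac X0 X1 (wd u) = if u = [] then v0 else 0 := by
    intro u
    induction u with
    | nil => rw [if_pos rfl, vac_nil]
    | cons i u ih =>
      rw [if_neg (List.cons_ne_nil i u)]
      have h2 : ∀ ξ : AYY, ξ = v0 ∨ ξ = 0 → X0 ξ = 0 ∧ X1 ξ = 0 := by
        rintro ξ (h | h)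
        · rw [h]; exact ⟨X0_nil [], X1_nn⟩
        · rw [h]; exact ⟨map_zero _, map_zero _⟩
      have h3 : vac X0 X1 (wd u) = v0 ∨ vac X0 X1 (wd u) = 0 := by
        rw [ih]; split_ifs <;> simp
      by_cases hi : i = 1
      · subst hi; rw [vac_1]; exact (h2 _ h3).2
      · have hi0 : i = 0 := by omega
        subst hi0; rw [vac_0]; exact (h2 _ h3).1
  have h1 : ∀ P : A, vac X0 X1 P = co P [] • v0 := by
    intro P
    induction P using al_induction with
    | h1 u =>
      rw [key, co_wd]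
      by_cases hu : u = []
      · rw [if_pos hu, if_pos hu, one_smul]
      · rw [if_neg hu, if_neg hu, zero_smul]
    | h2 P Q hP hQ => rw [map_add, co_add, hP, hQ, add_smul]
    | h3 c P hP => rw [map_smul, co_smul, hP, smul_smul]
  rw [h1, h, zero_smul]

end Pool.Agent.Y117.GRT
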